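import Pool.Agent.V8H84.HT.Weights
import Pool.Agent.Y115.CharQ

/-!
# Characters of the absolute Galois group of `ℚ` which are Hodge-Tate of weight zero
-/

set_option autoImplicit false
set_option linter.unusedSectionVars false

namespace Pool.Agent.V8H84.HT

open Pool.Agent.W292.FM Pool.Agent.W569.FM Pool.Agent.Y115.Lg Pool.Agent.Y115.Z
  Pool.Agent.Y115.CQ Pool.Agent.Y115.Chi

variable {ℓ : ℕ} [hℓ : Fact ℓ.Prime]

theorem exists_res_gen (F C : Type) [Field F] [Field C] [Algebra F C] [IsAlgClosed C] :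
    ∃ (φ : AlgebraicClosure F →ₐ[F] C) (res : Gal(C/F) →* GF F), ∀ σ x, φ (res σ x) = σ (φ x) := by
  let φ : AlgebraicClosure F →ₐ[F] C := IsAlgClosed.lift
  let _ : Algebra (AlgebraicClosure F) C := φ.toRingHom.toAlgebra
  have : IsScalarTower F (AlgebraicClosure F) C := IsScalarTower.of_algebraMap_eq fun x =>
    (φ.commutes x).symm
  refine ⟨φ, AlgEquiv.restrictNormalHom (AlgebraicClosure F), fun σ x => ?_⟩
  exact σ.restrictNormal_commutes (AlgebraicClosure F) x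

/-- an embedding of the algebraic numbers, and the restriction to them -/
theorem exists_res (ℓ : ℕ) [Fact ℓ.Prime] : ∃ (ι : AlgebraicClosure ℚ →+* PadicAlgCl ℓ)
    (res : Gal(PadicAlgCl ℓ/ℚ_[ℓ]) →* GF ℚ), ∀ σ x, σ (ι x) = ι (res σ x) := by
  let _ : Algebra ℚ (PadicAlgCl ℓ) := DivisionRing.toRatAlgebra
  obtain ⟨φ, res, h⟩ := exists_res_gen ℚ (PadicAlgCl ℓ)
  let toQ : Gal(PadicAlgCl ℓ/ℚ_[ℓ]) →* Gal(PadicAlgCl ℓ/ℚ) :=
    { toFun := fun σ => AlgEquiv.ofRingEquiv (f := (σ : PadicAlgCl ℓ ≃+* PadicAlgCl ℓ))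
        (fun x => by simp)
      map_one' := rfl
      map_mul' := fun _ _ => rfl }
  exact ⟨φ.toRingHom, res.comp toQ, fun σ x => (h (toQ σ) x).symm⟩

/-- the cyclotomic characters are compatible -/
theorem chi_res {ι : AlgebraicClosure ℚ →+* PadicAlgCl ℓ}
    {σ : Gal(PadicAlgCl ℓ/ℚ_[ℓ])} {g : GF ℚ} (h : ∀ x, σ (ι x) = ι (g x)) :
    chi ℚ ℓ g = kap ℓ σ := by
  apply Units.ext
  refine PadicInt.ext_of_toZModPow.mp fun n => ?_
  have hne : NeZero (ℓ ^ n) := ⟨pow_ne_zero _ hℓ.out.ne_zero⟩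
  obtain ⟨z, hz⟩ := HasEnoughRootsOfUnity.exists_primitiveRoot (AlgebraicClosure ℚ) (ℓ ^ n)
  have h1 : g z = z ^ (PadicInt.toZModPow n ((chi ℚ ℓ g : ℤ_[ℓ]ˣ) : ℤ_[ℓ])).val :=
    cyclotomicCharacter.spec ℓ
      (MulSemiringAction.toRingAut Gal(AlgebraicClosure ℚ/ℚ) (AlgebraicClosure ℚ) g) z hz.pow_eq_one
  have h2 : (ι z) ^ ℓ ^ n = 1 := by rw [← map_pow, hz.pow_eq_one, map_one]
  have h3 := kap_spec σ h2
  rw [h, ← map_pow] at h3
  have h4 := ι.injective h3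
  rw [h1] at h4
  have h5 := hz.pow_inj (ZMod.val_lt _) (ZMod.val_lt _) h4
  exact ZMod.val_injective _ h5

theorem continuous_chiE : Continuous (chiE ℓ ℚ_[ℓ]) := by
  have h1 : Continuous (chi ℚ ℓ) := continuous_chi ℚ ℓ
  have h2 : Continuous (Units.map ((algebraMap ℚ_[ℓ] ℚ_[ℓ] : ℚ_[ℓ] →+* ℚ_[ℓ]).comp
    (PadicInt.Coe.ringHom (p := ℓ)) : ℤ_[ℓ] →* ℚ_[ℓ])) := by
    apply Continuous.units_map
    exact continuous_subtype_val
  exact h2.comp h1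

theorem chiE_res {ι : AlgebraicClosure ℚ →+* PadicAlgCl ℓ}
    {σ : Gal(PadicAlgCl ℓ/ℚ_[ℓ])} {g : GF ℚ} (h : ∀ x, σ (ι x) = ι (g x)) :
    chiE ℓ ℚ_[ℓ] g = kq ℓ σ := by
  apply Units.ext
  rw [coe_chiE, coe_kq, chi_res h]
  rfl

/-- **A character of the Galois group of `ℚ` which is Hodge-Tate of weight zero has finite
order.** -/
theorem char_trivial (ω : GF ℚ →* ℚ_[ℓ]ˣ) (hω : Continuous ω)
    (ι : AlgebraicClosure ℚ →+* PadicAlgCl ℓ) (res : Gal(PadicAlgCl ℓ/ℚ_[ℓ]) →* GF ℚ)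
    (hres : ∀ σ x, σ (ι x) = ι (res σ x)) (H : Subgroup Gal(PadicAlgCl ℓ/ℚ_[ℓ]))
    [H.FiniteIndex] {x : ℂ_[ℓ]} (hx : x ≠ 0)
    (h : ∀ σ ∈ H, cpMap ℓ σ x = al ℓ ((ω (res σ) : ℚ_[ℓ]ˣ) : ℚ_[ℓ]) * x) :
    ∃ N : ℕ, 0 < N ∧ ∀ g, ω g ^ N = 1 := by
  have hcpt : CompactSpace (GF ℚ) := inferInstance
  set κ : GF ℚ →* ℚ_[ℓ]ˣ := chiE ℓ ℚ_[ℓ] with hκ
  obtain ⟨N1, hN1, h1⟩ := exists_exp ℓ ω hω
  obtain ⟨N2, hN2, h2⟩ := exists_exp ℓ κ continuous_chiE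
  set lam : GF ℚ → ℚ_[ℓ] := fun g => lg ℓ ((κ g : ℚ_[ℓ]) ^ N2) with hlam
  set φ : GF ℚ → ℚ_[ℓ] := fun g => lg ℓ ((ω g : ℚ_[ℓ]) ^ N1) with hφ
  have hlamadd : IsAdd lam := by
    intro g h
    rw [hlam]
    simp only
    rw [map_mul, Units.val_mul, mul_pow, lg_mul ℓ (h2 g) (h2 h)]
  have hφadd : IsAdd φ := by
    intro g h
    rw [hφ]
    simp only
    rw [map_mul, Units.val_mul, mul_pow, lg_mul ℓ (h1 g) (h1 h)]
  have hlamc : Continuous lam := by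
    refine continuous_lg ℓ (fun g => (κ g : ℚ_[ℓ]) ^ N2) ?_ ?_ ?_ h2
    · intro g h
      rw [map_mul, Units.val_mul, mul_pow]
    · simp
    · exact (Units.continuous_val.comp continuous_chiE).pow N2
  have hφc : Continuous φ := by
    refine continuous_lg ℓ (fun g => (ω g : ℚ_[ℓ]) ^ N1) ?_ ?_ ?_ h1
    · intro g h
      rw [map_mul, Units.val_mul, mul_pow]
    · simp
    · exact (Units.continuous_val.comp hω).pow N1
  -- elements with nonzero value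
  have hgood : ∀ n, ∃ σ : Gal(PadicAlgCl ℓ/ℚ_[ℓ]), km ℓ n σ = 1 ∧ lam (res σ) ≠ 0 := by
    intro n
    obtain ⟨σ, e1, e2, e3⟩ := exists_good (p := ℓ) n
    refine ⟨σ, e1, ?_⟩
    rw [hlam]
    simp only
    rw [hκ, chiE_res (hres σ)]
    rw [(lg_pow ℓ e2 N2).2]
    refine mul_ne_zero (Nat.cast_ne_zero.2 hN2.ne') fun h => e3 (lg_eq_zero ℓ e2 h)
  obtain ⟨c, hc⟩ := proportional ℓ lam φ hlamadd hφadd hlamc hφc (by
    obtain ⟨σ, -, hσ⟩ := hgood 0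
    exact ⟨_, hσ⟩)
  -- the power of `x`
  set η : Gal(PadicAlgCl ℓ/ℚ_[ℓ]) →* ℚ_[ℓ]ˣ := (powMonoidHom N1).comp (ω.comp res) with hη
  have hη1 : ∀ σ, kap ℓ σ = 1 → η σ = 1 := by
    intro σ hσ
    have e1 : φ (res σ) = 0 := by
      rw [hc, hlam]
      simp only
      rw [hκ, chiE_res (hres σ), kq_one hσ, Units.val_one, one_pow, lg_one, mul_zero]
    have e2 := lg_eq_zero ℓ (h1 (res σ)) e1
    apply Units.ext
    rw [hη, MonoidHom.comp_apply, MonoidHom.comp_apply, powMonoidHom_apply,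
      Units.val_pow_eq_pow_val, e2, Units.val_one]
  obtain ⟨n, m, hm, hnm⟩ := tate_fin (pow_ne_zero N1 hx) H η hη1 (by
    intro σ hσ
    rw [map_pow, h σ hσ, mul_pow, ← map_pow, hη, MonoidHom.comp_apply, MonoidHom.comp_apply,
      powMonoidHom_apply, Units.val_pow_eq_pow_val])
  obtain ⟨σ, e1, e2⟩ := hgood n
  have hc0 : c = 0 := by
    have e3 := hnm σ e1
    have e4 : ((ω (res σ) : ℚ_[ℓ]ˣ) : ℚ_[ℓ]) ^ N1 = ((η σ : ℚ_[ℓ]ˣ) : ℚ_[ℓ]) := by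
      rw [hη, MonoidHom.comp_apply, MonoidHom.comp_apply, powMonoidHom_apply,
        Units.val_pow_eq_pow_val]
    have e5 := (lg_pow ℓ (h1 (res σ)) m).2
    rw [e4, ← Units.val_pow_eq_pow_val, e3, Units.val_one, lg_one, ← e4] at e5
    have e6 : (m : ℚ_[ℓ]) * (c * lam (res σ)) = 0 := by
      rw [← hc]
      exact e5.symm
    rcases mul_eq_zero.1 e6 with e7 | e7
    · exact absurd e7 (Nat.cast_ne_zero.2 hm.ne')
    · exact (mul_eq_zero.1 e7).resolve_right e2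
  refine ⟨N1, hN1, fun g => ?_⟩
  have e3 : φ g = 0 := by rw [hc, hc0, zero_mul]
  apply Units.ext
  rw [Units.val_pow_eq_pow_val, Units.val_one]
  exact lg_eq_zero ℓ (h1 g) e3

end Pool.Agent.V8H84.HT
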