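import Pool.Agent.W292.FM.Cyclo
import Pool.Agent.W292.FM.Galois

/-!
# The cyclotomic tower over the `p`-adic numbers
-/

set_option autoImplicit false
set_option linter.unusedSectionVars false

namespace Pool.Agent.V8H84.HT

open Pool.Agent.W292.FM Polynomial

variable (p : ℕ) [hp : Fact p.Prime]

/-- The cyclotomic character of the absolute Galois group of `ℚ_p`. -/
noncomputable def kap : Gal(PadicAlgCl p/ℚ_[p]) →* ℤ_[p]ˣ :=
  (cyclotomicCharacter (PadicAlgCl p) p).comp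
    (MulSemiringAction.toRingAut Gal(PadicAlgCl p/ℚ_[p]) (PadicAlgCl p))

/-- The cyclotomic character modulo `p ^ n`. -/
noncomputable def km (n : ℕ) (σ : Gal(PadicAlgCl p/ℚ_[p])) : ZMod (p ^ n) :=
  PadicInt.toZModPow n ((kap p σ : ℤ_[p]ˣ) : ℤ_[p])

variable {p}

theorem km_mul (n : ℕ) (σ τ : Gal(PadicAlgCl p/ℚ_[p])) : km p n (σ * τ) = km p n σ * km p n τ := by
  unfold km
  rw [map_mul, Units.val_mul, map_mul]

theorem km_one (n : ℕ) : km p n 1 = 1 := by
  unfold km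
  rw [map_one, Units.val_one, map_one]

theorem km_cast {n m : ℕ} (h : n ≤ m) (σ : Gal(PadicAlgCl p/ℚ_[p])) :
    ZMod.castHom (pow_dvd_pow p h) (ZMod (p ^ n)) (km p m σ) = km p n σ := by
  unfold km
  exact PadicInt.cast_toZModPow n m h _

theorem kap_spec {n : ℕ} (σ : Gal(PadicAlgCl p/ℚ_[p])) {t : PadicAlgCl p} (ht : t ^ p ^ n = 1) :
    σ t = t ^ (km p n σ).val :=
  cyclotomicCharacter.spec p (MulSemiringAction.toRingAut Gal(PadicAlgCl p/ℚ_[p]) (PadicAlgCl p) σ)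
    t ht

theorem pow_val_cast {m : ℕ} {t : PadicAlgCl p} (ht : t ^ p ^ m = 1) (a : ℕ) :
    t ^ ((a : ZMod (p ^ m)).val) = t ^ a := by
  rw [ZMod.val_natCast]
  conv_rhs => rw [← Nat.div_add_mod a (p ^ m), pow_add, pow_mul, ht, one_pow, one_mul]

theorem pow_val_mul {m : ℕ} {t : PadicAlgCl p} (ht : t ^ p ^ m = 1) (a b : ZMod (p ^ m)) :
    t ^ (a * b).val = (t ^ a.val) ^ b.val := by
  have : NeZero (p ^ m) := ⟨pow_ne_zero _ hp.out.ne_zero⟩
  have h : a * b = ((a.val * b.val : ℕ) : ZMod (p ^ m)) := by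
    push_cast
    rw [ZMod.natCast_zmod_val, ZMod.natCast_zmod_val]
  rw [h, pow_val_cast ht, pow_mul]

theorem pow_val_add {m : ℕ} {t : PadicAlgCl p} (ht : t ^ p ^ m = 1) (a b : ZMod (p ^ m)) :
    t ^ (a + b).val = t ^ a.val * t ^ b.val := by
  have : NeZero (p ^ m) := ⟨pow_ne_zero _ hp.out.ne_zero⟩
  have h : a + b = ((a.val + b.val : ℕ) : ZMod (p ^ m)) := by
    push_cast
    rw [ZMod.natCast_zmod_val, ZMod.natCast_zmod_val]
  rw [h, pow_val_cast ht, pow_add]

/-- An expansion in powers of `z - 1`. -/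
theorem aeval_taylor (f : ℚ_[p][X]) (z : PadicAlgCl p) {N : ℕ} (hN : f.natDegree < N) :
    aeval z f = ∑ i ∈ Finset.range N,
      algebraMap ℚ_[p] (PadicAlgCl p) ((taylor 1 f).coeff i) * (z - 1) ^ i := by
  have h1 : aeval (z - 1) (taylor 1 f) = aeval z f := by
    rw [taylor_apply, aeval_comp]
    congr 1
    congr 1
    simp
  have h2 : (taylor 1 f).natDegree < N := by rw [natDegree_taylor]; exact hN
  rw [← h1, aeval_eq_sum_range' h2]
  refine Finset.sum_congr rfl fun i _ => ?_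
  rw [Algebra.smul_def]

theorem totient_pos' (m : ℕ) : 0 < Nat.totient (p ^ (m + 1)) :=
  Nat.totient_pos.2 (pow_pos hp.out.pos _)

theorem eq_zero_of_aeval {z : PadicAlgCl p} {m : ℕ} (hz : IsPrimitiveRoot z (p ^ (m + 1)))
    (f : ℚ_[p][X]) (hf : f.natDegree < Nat.totient (p ^ (m + 1))) (h : aeval z f = 0) : f = 0 := by
  have h1 : ∀ i, (taylor 1 f).coeff i = 0 := by
    intro i
    by_cases hi : i < Nat.totient (p ^ (m + 1))
    · have h2 := norm_term_le hz (fun i => (taylor 1 f).coeff i) hi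
      rw [← aeval_taylor f z hf, h, norm_zero] at h2
      have h3 := norm_le_zero_iff.1 h2
      rcases mul_eq_zero.1 h3 with h4 | h4
      · exact (map_eq_zero _).1 h4
      · exfalso
        have hz1 : z - 1 = 0 := eq_zero_of_pow_eq_zero h4
        have h5 := norm_sub_one_pow_totient hz
        rw [hz1, norm_zero, zero_pow (totient_pos' m).ne'] at h5
        have : (p : ℝ)⁻¹ ≠ 0 := inv_ne_zero (by exact_mod_cast hp.out.ne_zero)
        exact this h5.symm
    · exact coeff_eq_zero_of_natDegree_lt (by rw [natDegree_taylor]; omega)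
  have h2 : taylor 1 f = 0 := Polynomial.ext fun i => by rw [h1 i, coeff_zero]
  exact (taylor_injective (1 : ℚ_[p])) (by rw [h2, map_zero])

theorem minpoly_eq {z : PadicAlgCl p} {m : ℕ} (hz : IsPrimitiveRoot z (p ^ (m + 1))) :
    minpoly ℚ_[p] z = cyclotomic (p ^ (m + 1)) ℚ_[p] := by
  have hint : IsIntegral ℚ_[p] z := (Algebra.IsAlgebraic.isAlgebraic z).isIntegral
  have hroot : aeval z (cyclotomic (p ^ (m + 1)) ℚ_[p]) = 0 := by
    rw [aeval_def, ← eval_map, map_cyclotomic]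
    exact hz.isRoot_cyclotomic (pow_pos hp.out.pos _)
  have hdvd := minpoly.dvd ℚ_[p] z hroot
  refine Polynomial.eq_of_dvd_of_natDegree_le_of_leadingCoeff hdvd ?_ ?_
  · rw [natDegree_cyclotomic]
    by_contra hcon
    push Not at hcon
    exact minpoly.ne_zero hint (eq_zero_of_aeval hz _ hcon (minpoly.aeval _ _))
  · rw [(minpoly.monic hint).leadingCoeff, (cyclotomic.monic _ _).leadingCoeff]

theorem exists_km {m : ℕ} (v : (ZMod (p ^ (m + 1)))ˣ) :
    ∃ σ : Gal(PadicAlgCl p/ℚ_[p]), km p (m + 1) σ = v := by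
  have hne : NeZero (p ^ (m + 1)) := ⟨pow_ne_zero _ hp.out.ne_zero⟩
  obtain ⟨z, hz⟩ := HasEnoughRootsOfUnity.exists_primitiveRoot (PadicAlgCl p) (p ^ (m + 1))
  have hz2 : IsPrimitiveRoot (z ^ (v : ZMod (p ^ (m + 1))).val) (p ^ (m + 1)) := by
    apply hz.pow_of_coprime
    exact ZMod.val_coe_unit_coprime v
  have hint : IsIntegral ℚ_[p] z := (Algebra.IsAlgebraic.isAlgebraic z).isIntegral
  have h1 : aeval (z ^ (v : ZMod (p ^ (m + 1))).val) (minpoly ℚ_[p] z) = 0 := by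
    rw [minpoly_eq hz, ← minpoly_eq hz2]
    exact minpoly.aeval _ _
  obtain ⟨σ, hσ⟩ := minpoly.exists_algEquiv_of_root (Algebra.IsAlgebraic.isAlgebraic z) h1
  refine ⟨σ⁻¹, ?_⟩
  have h2 := kap_spec σ⁻¹ hz.pow_eq_one
  have hσ' : σ⁻¹ z = z ^ (v : ZMod (p ^ (m + 1))).val := by
    have h3 : σ⁻¹ (σ (z ^ (v : ZMod (p ^ (m + 1))).val)) = z ^ (v : ZMod (p ^ (m + 1))).val :=
      σ.symm_apply_apply _
    rwa [hσ] at h3
  rw [hσ'] at h2
  have h3 := hz.pow_inj (ZMod.val_lt _) (ZMod.val_lt _) h2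
  exact (ZMod.val_injective _ h3).symm

end Pool.Agent.V8H84.HT
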