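import Pool.Agent.V8H84.HT.Fin

/-!
# Hodge-Tate representations: definitions
-/

set_option autoImplicit false

namespace Pool.Agent.V8H84.HT

open Pool.Agent.W292.FM NumberField IsDedekindDomain Matrix Module Polynomial

section hodge

variable {F : Type} [Field F] {ℓ : ℕ} [Fact ℓ.Prime] {n : ℕ}

/-- The matrix of `g`. -/
noncomputable def mat (ρ : Gal(AlgebraicClosure F/F) →* GL (Fin n) ℚ_[ℓ])
    (g : Gal(AlgebraicClosure F/F)) : Matrix (Fin n) (Fin n) ℚ_[ℓ] := (ρ g : GL (Fin n) ℚ_[ℓ])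

/-- `ρ` is Hodge-Tate at all places above `ℓ`, with weights `m i`: for every embedding `τ` of the
algebraic closure of `F` into that of `ℚ_ℓ` there is a basis `e i` of `V ⊗ ℂ_ℓ` (the columns of the
matrix `M`) on which the elements `σ` of the decomposition group act by `σ (e i) = χ(σ) ^ (-m i) e i`
for the cyclotomic character `χ`, that is, `V ⊗ ℂ_ℓ` is the sum of the `ℂ_ℓ(-m i)`. -/
def HodgeTate (ρ : Gal(AlgebraicClosure F/F) →* GL (Fin n) ℚ_[ℓ]) (m : Fin n → ℤ) : Prop :=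
  ∀ τ : AlgebraicClosure F →+* PadicAlgCl ℓ, ∃ M : Matrix (Fin n) (Fin n) ℂ_[ℓ], M.det ≠ 0 ∧
    ∀ (σ : Gal(PadicAlgCl ℓ/ℚ_[ℓ])) (g : Gal(AlgebraicClosure F/F)), (∀ x, σ (τ x) = τ (g x)) →
      (mat ρ g).map (algebraMap ℚ_[ℓ] ℂ_[ℓ]) * M.map (cpMap ℓ σ) =
        M * Matrix.diagonal fun i => algebraMap ℚ_[ℓ] ℂ_[ℓ] ((kq ℓ σ : ℚ_[ℓ]) ^ (-m i))

/-- There is a non-degenerate symmetric or alternating bilinear form, with matrix `J`, such that
`(gx, gy) = χ(g) ^ (-w) (x, y)` for the `ℓ`-adic cyclotomic character `χ`. -/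
def Polarized (ρ : Gal(AlgebraicClosure F/F) →* GL (Fin n) ℚ_[ℓ]) (w : ℤ) : Prop :=
  ∃ J : Matrix (Fin n) (Fin n) ℚ_[ℓ], J.det ≠ 0 ∧ (Jᵀ = J ∨ Jᵀ = -J) ∧
    ∀ g : Gal(AlgebraicClosure F/F), (mat ρ g)ᵀ * J * mat ρ g =
      ((cyclotomicCharacter (AlgebraicClosure F) ℓ g : ℤ_[ℓ]) : ℚ_[ℓ]) ^ (-w) • J

/-- `W` is stable under the Galois group. -/
def Stable (ρ : Gal(AlgebraicClosure F/F) →* GL (Fin n) ℚ_[ℓ])
    (W : Submodule ℚ_[ℓ] (Fin n → ℚ_[ℓ])) : Prop := ∀ g, ∀ x ∈ W, mat ρ g *ᵥ x ∈ W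

/-- Every stable subspace has a stable complement. -/
def Semisimple (ρ : Gal(AlgebraicClosure F/F) →* GL (Fin n) ℚ_[ℓ]) : Prop :=
  ∀ W, Stable ρ W → ∃ W', Stable ρ W' ∧ IsCompl W W'

/-- A relation of size `k` between the Hodge-Tate weights: for each of the `d` embeddings of the
ground field a set of `k` weights, such that no two of the same set (equal or not) have sum `w`, and
that the average of all these weights is `w / 2`. -/
def HodgeRelation (m : Fin n → ℤ) (w : ℤ) (d k : ℕ) : Prop :=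
  ∃ I : Fin d → Finset (Fin n), (∀ j, (I j).card = k ∧ ∀ a ∈ I j, ∀ b ∈ I j, m a + m b ≠ w) ∧
    2 * ∑ j, ∑ a ∈ I j, m a = w * k * d

end hodge

section places

variable {F : Type} [Field F] [NumberField F]

/-- The place `v` of `F` lies above the prime number `p`. -/
def Above (v : HeightOneSpectrum (𝓞 F)) (p : ℕ) : Prop := (p : 𝓞 F) ∈ v.asIdeal

variable (F) in
/-- The prime number `p` is unramified in `F`. -/
def UnramifiedIn (p : ℕ) : Prop :=
  ∀ v : HeightOneSpectrum (𝓞 F), Above v p → (p : 𝓞 F) ∉ v.asIdeal ^ 2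

/-- `q v` is the number of elements of the residue field of `v`. -/
noncomputable abbrev q (v : HeightOneSpectrum (𝓞 F)) : ℕ := Ideal.absNorm v.asIdeal

/-- `Q` is a prime ideal above `v` of the ring of all algebraic integers in the algebraic
closure of `F`. -/
def PrimeOver (Q : Ideal (𝓞 (AlgebraicClosure F))) (v : HeightOneSpectrum (𝓞 F)) : Prop :=
  Q.IsPrime ∧ Q.comap (algebraMap (𝓞 F) (𝓞 (AlgebraicClosure F))) = v.asIdeal

/-- A relation of size `k` between the roots of the Frobenius polynomials `P v` at the places above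
`p`: a multiset `A v` of `k` roots for each of these places, such that the numbers in `A v`,
together with the numbers `q v ^ w / a` for `a` in `A v`, are roots of `P v` (with multiplicities),
and that the product of all the numbers in the `A v` is `p ^ (w * k * [F : ℚ] / 2)`, up to a root of
unity. -/
def FrobeniusRelation (P : HeightOneSpectrum (𝓞 F) → ℚ[X]) (w : ℤ) (p k : ℕ) : Prop :=
  ∃ A : HeightOneSpectrum (𝓞 F) → Multiset ℂ,
    (∀ v, Above v p → Multiset.card (A v) = k ∧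
      A v + (A v).map (fun a => (q v : ℂ) ^ w / a) ≤ ((P v).map (algebraMap ℚ ℂ)).roots) ∧
    ∃ N : ℕ, 0 < N ∧
      (∏ᶠ (v : HeightOneSpectrum (𝓞 F)) (_ : Above v p), (A v).prod) ^ (2 * N) =
        (p : ℂ) ^ (w * k * finrank ℚ F * N)

/-- The representation `ρ` is unramified at `v`, every geometric Frobenius element at `v` has the
characteristic polynomial `P`, with rational coefficients, and `P` is pure of weight `w`. -/
structure GoodAt {ℓ : ℕ} [Fact ℓ.Prime] {n : ℕ}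
    (ρ : Gal(AlgebraicClosure F/F) →* GL (Fin n) ℚ_[ℓ]) (w : ℤ)
    (v : HeightOneSpectrum (𝓞 F)) (P : ℚ[X]) : Prop where
  unramified : ∀ Q, PrimeOver Q v → ∀ g : Gal(AlgebraicClosure F/F),
    (∀ x : 𝓞 (AlgebraicClosure F), g • x - x ∈ Q) → ρ g = 1
  frobenius : ∀ Q, PrimeOver Q v → ∀ g : Gal(AlgebraicClosure F/F),
    (∀ x : 𝓞 (AlgebraicClosure F), g • x - x ^ q v ∈ Q) →
      (mat ρ g⁻¹).charpoly = P.map (algebraMap ℚ ℚ_[ℓ])
  pure : ∀ a ∈ (P.map (algebraMap ℚ ℂ)).roots, ‖a‖ ^ 2 = (q v : ℝ) ^ w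

end places

end Pool.Agent.V8H84.HT
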