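import Pool.Agent.V8H84.HT.Tate
import Pool.Agent.Y115.Log

/-!
# Tate's theorem for subgroups of finite index, and for powers of the cyclotomic character
-/

set_option autoImplicit false
set_option linter.unusedSectionVars false

namespace Pool.Agent.V8H84.HT

open Pool.Agent.W292.FM Polynomial Pool.Agent.Y115.Lg

variable {p : ℕ} [hp : Fact p.Prime]

theorem tate_fin {x : ℂ_[p]} (hx0 : x ≠ 0) (H : Subgroup Gal(PadicAlgCl p/ℚ_[p])) [H.FiniteIndex]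
    (η : Gal(PadicAlgCl p/ℚ_[p]) →* ℚ_[p]ˣ) (h1 : ∀ σ, kap p σ = 1 → η σ = 1)
    (h : ∀ σ ∈ H, cpMap p σ x = algebraMap ℚ_[p] ℂ_[p] (η σ : ℚ_[p]) * x) :
    ∃ n m : ℕ, 0 < m ∧ ∀ σ, km p n σ = 1 → η σ ^ m = 1 := by
  classical
  let _ : Fintype (Gal(PadicAlgCl p/ℚ_[p]) ⧸ H) := Fintype.ofFinite _
  set m := Fintype.card (Gal(PadicAlgCl p/ℚ_[p]) ⧸ H) with hm
  have hm0 : 0 < m := Fintype.card_pos
  set y : ℂ_[p] := ∏ q : Gal(PadicAlgCl p/ℚ_[p]) ⧸ H, cpMap p q.out x with hy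
  have hy0 : y ≠ 0 := by
    rw [hy]
    refine Finset.prod_ne_zero_iff.2 fun q _ => ?_
    exact (map_ne_zero_iff _ (cpMap p q.out).injective).2 hx0
  have key : ∀ σ : Gal(PadicAlgCl p/ℚ_[p]), cpMap p σ y =
      algebraMap ℚ_[p] ℂ_[p] ((η σ ^ m : ℚ_[p]ˣ) : ℚ_[p]) * y := by
    intro σ
    -- the elements of `H`
    have hmem : ∀ q : Gal(PadicAlgCl p/ℚ_[p]) ⧸ H, (σ • q).out⁻¹ * (σ * q.out) ∈ H := by
      intro q
      rw [← QuotientGroup.eq]
      have e1 : (((σ • q).out : Gal(PadicAlgCl p/ℚ_[p])) :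
        Gal(PadicAlgCl p/ℚ_[p]) ⧸ H) = σ • q := QuotientGroup.out_eq' _
      have e2 : ((σ * q.out : Gal(PadicAlgCl p/ℚ_[p])) :
        Gal(PadicAlgCl p/ℚ_[p]) ⧸ H) = σ • q := by
        conv_rhs => rw [← QuotientGroup.out_eq' q]
        rfl
      rw [e1, e2]
    have hfac : ∀ q : Gal(PadicAlgCl p/ℚ_[p]) ⧸ H, cpMap p σ (cpMap p q.out x) =
        algebraMap ℚ_[p] ℂ_[p] ((η ((σ • q).out⁻¹ * (σ * q.out)) : ℚ_[p]ˣ) : ℚ_[p]) *
          cpMap p (σ • q).out x := by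
      intro q
      have e3 : σ * q.out = (σ • q).out * ((σ • q).out⁻¹ * (σ * q.out)) := by group
      rw [← cpMap_mul]
      conv_lhs => rw [e3]
      rw [cpMap_mul, h _ (hmem q), map_mul, cpMap_algebraMap]
    rw [hy, map_prod]
    rw [Finset.prod_congr rfl fun q _ => hfac q, Finset.prod_mul_distrib]
    congr 1
    · rw [← map_prod, ← Units.coe_prod]
      congr 2
      have e4 : ∀ q : Gal(PadicAlgCl p/ℚ_[p]) ⧸ H, η ((σ • q).out⁻¹ * (σ * q.out)) =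
          (η (σ • q).out)⁻¹ * (η σ * η q.out) := by
        intro q
        rw [map_mul, map_mul, map_inv]
      rw [Finset.prod_congr rfl fun q _ => e4 q, Finset.prod_mul_distrib, Finset.prod_mul_distrib,
        Finset.prod_const, Finset.card_univ, Finset.prod_inv_distrib]
      have e5 : ∏ q : Gal(PadicAlgCl p/ℚ_[p]) ⧸ H, η (σ • q).out =
          ∏ q : Gal(PadicAlgCl p/ℚ_[p]) ⧸ H, η q.out :=
        Fintype.prod_equiv (MulAction.toPerm σ) _ _ fun q => rfl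
      rw [e5, mul_comm (η σ ^ _), inv_mul_cancel_left]
    · exact Fintype.prod_equiv (MulAction.toPerm σ) _ _ fun q => rfl
  obtain ⟨n, hn⟩ := tate hy0 (fun σ => ((η σ ^ m : ℚ_[p]ˣ) : ℚ_[p]))
    (fun σ hσ => by rw [h1 σ hσ, one_pow, Units.val_one]) key
  exact ⟨n, m, hm0, fun σ hσ => Units.ext (hn σ hσ)⟩

/-- the cyclotomic character with values in `ℚ_p` -/
noncomputable def kq (p : ℕ) [Fact p.Prime] : Gal(PadicAlgCl p/ℚ_[p]) →* ℚ_[p]ˣ :=
  (Units.map (PadicInt.Coe.ringHom : ℤ_[p] →+* ℚ_[p]).toMonoidHom).comp (kap p)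

theorem coe_kq (σ : Gal(PadicAlgCl p/ℚ_[p])) :
    ((kq p σ : ℚ_[p]ˣ) : ℚ_[p]) = (((kap p σ : ℤ_[p]ˣ) : ℤ_[p]) : ℚ_[p]) := rfl

theorem kq_one {σ : Gal(PadicAlgCl p/ℚ_[p])} (h : kap p σ = 1) : kq p σ = 1 := by
  unfold kq
  rw [MonoidHom.comp_apply, h, map_one]

/-- there are elements of the Galois group, close to the identity on roots of unity, whose
cyclotomic character is close to one and of infinite order -/
theorem exists_good (n : ℕ) : ∃ σ : Gal(PadicAlgCl p/ℚ_[p]), km p n σ = 1 ∧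
    ‖((kq p σ : ℚ_[p]ˣ) : ℚ_[p]) - 1‖ * (p : ℝ) ^ 3 ≤ 1 ∧ ((kq p σ : ℚ_[p]ˣ) : ℚ_[p]) ≠ 1 := by
  set M := max n 3 with hM
  have hn : n ≤ M := le_max_left _ _
  have h3 : 3 ≤ M := le_max_right _ _
  have hne : NeZero (p ^ (M + 1)) := ⟨pow_ne_zero _ hp.out.ne_zero⟩
  -- the unit
  have hv : IsUnit (((1 + p ^ M : ℕ)) : ZMod (p ^ (M + 1))) := by
    rw [ZMod.isUnit_iff_coprime]
    apply Nat.Coprime.pow_right
    rw [Nat.coprime_comm, hp.out.coprime_iff_not_dvd]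
    intro hd
    have h1 : p ∣ p ^ M := dvd_pow_self p (by omega)
    have h2 : p ∣ 1 := (Nat.dvd_add_left h1).1 hd
    exact hp.out.one_lt.ne' (Nat.dvd_one.1 h2)
  obtain ⟨v, hv⟩ := hv
  obtain ⟨σ, hσ⟩ := exists_km v
  rw [hv] at hσ
  have hM1 : km p M σ = 1 := by
    rw [← km_cast (Nat.le_succ M), hσ, map_natCast]
    push_cast
    have : ((p : ZMod (p ^ M)) ^ M) = 0 := by
      have := ZMod.natCast_self (p ^ M)
      rwa [Nat.cast_pow] at this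
    rw [this, add_zero]
  refine ⟨σ, ?_, ?_, ?_⟩
  · rw [← km_cast hn, hM1, map_one]
  · have h4 : ((kap p σ : ℤ_[p]ˣ) : ℤ_[p]) - 1 ∈ (Ideal.span {(p : ℤ_[p]) ^ M} : Ideal ℤ_[p]) := by
      rw [← PadicInt.ker_toZModPow, RingHom.mem_ker, map_sub, map_one]
      exact sub_eq_zero.2 hM1
    have h5 := (PadicInt.norm_le_pow_iff_mem_span_pow _ M).2 h4
    have h6 : ‖((kq p σ : ℚ_[p]ˣ) : ℚ_[p]) - 1‖ = ‖((kap p σ : ℤ_[p]ˣ) : ℤ_[p]) - 1‖ := by
      rw [coe_kq, PadicInt.norm_def]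
      push_cast
      rfl
    rw [h6]
    have hp1 : (1 : ℝ) < p := by exact_mod_cast hp.out.one_lt
    have hp0 : (0 : ℝ) < p := by linarith
    calc ‖((kap p σ : ℤ_[p]ˣ) : ℤ_[p]) - 1‖ * (p : ℝ) ^ 3
        ≤ (p : ℝ) ^ (-(M : ℤ)) * (p : ℝ) ^ 3 := mul_le_mul_of_nonneg_right h5 (by positivity)
      _ ≤ (p : ℝ) ^ (-(M : ℤ)) * (p : ℝ) ^ M :=
          mul_le_mul_of_nonneg_left (pow_le_pow_right₀ hp1.le h3) (by positivity)
      _ = 1 := by
          rw [zpow_neg, zpow_natCast]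
          exact inv_mul_cancel₀ (by positivity)
  · intro h7
    have h8 : ((kap p σ : ℤ_[p]ˣ) : ℤ_[p]) = 1 := by
      apply PadicInt.ext
      exact h7
    have h9 : km p (M + 1) σ = 1 := by
      unfold km
      rw [h8, map_one]
    rw [hσ] at h9
    have h10 : ((p ^ M : ℕ) : ZMod (p ^ (M + 1))) = 0 := by
      push_cast at h9 ⊢
      linear_combination h9
    rw [ZMod.natCast_eq_zero_iff] at h10
    have h11 := Nat.le_of_dvd (pow_pos hp.out.pos _) h10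
    have h12 : p ^ M < p ^ (M + 1) := Nat.pow_lt_pow_right hp.out.one_lt (Nat.lt_succ_self M)
    omega

/-- **Tate's theorem**: there are no nonzero elements on which an open subgroup acts through a
nonzero power of the cyclotomic character. -/
theorem tate_int {x : ℂ_[p]} (H : Subgroup Gal(PadicAlgCl p/ℚ_[p])) [H.FiniteIndex] {e : ℤ}
    (he : e ≠ 0)
    (h : ∀ σ ∈ H, cpMap p σ x = algebraMap ℚ_[p] ℂ_[p] ((kq p σ ^ e : ℚ_[p]ˣ) : ℚ_[p]) * x) :
    x = 0 := by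
  by_contra hx0
  obtain ⟨n, m, hm, hnm⟩ := tate_fin hx0 H ((zpowGroupHom e).comp (kq p))
    (fun σ hσ => by rw [MonoidHom.comp_apply, kq_one hσ, map_one]) h
  obtain ⟨σ, h1, h2, h3⟩ := exists_good (p := p) n
  have h4 := hnm σ h1
  rw [MonoidHom.comp_apply, zpowGroupHom_apply] at h4
  -- a positive power is one
  have h5 : (kq p σ) ^ (e.natAbs * m) = 1 := by
    rcases Int.natAbs_eq e with h6 | h6
    · rw [h6, zpow_natCast, ← pow_mul] at h4
      exact h4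
    · rw [h6, zpow_neg, zpow_natCast, inv_pow, inv_eq_one, ← pow_mul] at h4
      exact h4
  have h6 := (lg_pow p h2 (e.natAbs * m)).2
  have h7 : ((kq p σ : ℚ_[p]ˣ) : ℚ_[p]) ^ (e.natAbs * m) = 1 := by
    rw [← Units.val_pow_eq_pow_val, h5, Units.val_one]
  rw [h7, lg_one] at h6
  have h8 : ((e.natAbs * m : ℕ) : ℚ_[p]) ≠ 0 :=
    Nat.cast_ne_zero.2 (Nat.mul_ne_zero (Int.natAbs_ne_zero.2 he) hm.ne')
  rcases mul_eq_zero.1 h6.symm with h9 | h9
  · exact h8 h9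
  · exact h3 (lg_eq_zero p h2 h9)

end Pool.Agent.V8H84.HT
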