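import Pool.Agent.V8H84.HT.Defs
import Pool.Agent.V8H84.HT.Char
import Pool.Agent.Y115.Main

/-!
# The determinant of an isotropic subspace of a Hodge-Tate representation
-/

set_option autoImplicit false
set_option linter.unusedSectionVars false

namespace Pool.Agent.V8H84.HT

open Pool.Agent.W292.FM Pool.Agent.W569.FM Pool.Agent.Y115.Lg Pool.Agent.Y115.Z
  Pool.Agent.Y115.CQ Pool.Agent.Y115.Chi Pool.Agent.Y115.T Pool.Agent.Y115.R Matrix Module

variable {ℓ : ℕ} [hℓ : Fact ℓ.Prime]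

/-- the cyclotomic characters are compatible -/
theorem chi_res' {F : Type} [Field F] [CharZero F] {ι : AlgebraicClosure F →+* PadicAlgCl ℓ}
    {σ : Gal(PadicAlgCl ℓ/ℚ_[ℓ])} {g : GF F} (h : ∀ x, σ (ι x) = ι (g x)) :
    chi F ℓ g = kap ℓ σ := by
  have : CharZero (AlgebraicClosure F) := charZero_of_injective_algebraMap
    (algebraMap F (AlgebraicClosure F)).injective
  apply Units.ext
  refine PadicInt.ext_of_toZModPow.mp fun n => ?_
  have hne : NeZero (ℓ ^ n) := ⟨pow_ne_zero _ hℓ.out.ne_zero⟩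
  obtain ⟨z, hz⟩ := HasEnoughRootsOfUnity.exists_primitiveRoot (AlgebraicClosure F) (ℓ ^ n)
  have h1 : g z = z ^ (PadicInt.toZModPow n ((chi F ℓ g : ℤ_[ℓ]ˣ) : ℤ_[ℓ])).val :=
    cyclotomicCharacter.spec ℓ
      (MulSemiringAction.toRingAut Gal(AlgebraicClosure F/F) (AlgebraicClosure F) g) z hz.pow_eq_one
  have h2 : (ι z) ^ ℓ ^ n = 1 := by rw [← map_pow, hz.pow_eq_one, map_one]
  have h3 := kap_spec σ h2
  rw [h, ← map_pow] at h3
  have h4 := ι.injective h3
  rw [h1] at h4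
  have h5 := hz.pow_inj (ZMod.val_lt _) (ZMod.val_lt _) h4
  exact ZMod.val_injective _ h5

section basis

variable {K : Type*} [Field K] {n : ℕ} {G : Type*} [Group G] (ρ : G →* GL (Fin n) K)
  (W : Submodule K (Fin n → K)) (hW : ∀ g, W ≤ W.comap (act ρ g))

/-- the matrix of a basis of the subspace -/
noncomputable def bm : Matrix (Fin n) (Fin (finrank K W)) K :=
  Matrix.of fun a j => ((finBasis K W j : W) : Fin n → K) a

theorem bm_left : ∃ L : Matrix (Fin (finrank K W)) (Fin n) K, L * bm W = 1 := by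
  have hinj : Function.Injective (Matrix.mulVecLin (bm W)) := by
    rw [← LinearMap.ker_eq_bot, LinearMap.ker_eq_bot']
    intro v hv
    have h1 : ∑ j, v j • finBasis K W j = 0 := by
      apply Subtype.ext
      rw [Submodule.coe_sum]
      have h2 : (bm W) *ᵥ v = 0 := hv
      funext a
      have h3 := congrFun h2 a
      rw [Matrix.mulVec, dotProduct] at h3
      rw [Finset.sum_apply]
      simp only [Submodule.coe_smul, Pi.smul_apply, smul_eq_mul, ZeroMemClass.coe_zero,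
        Pi.zero_apply]
      simp only [bm, Matrix.of_apply, Pi.zero_apply] at h3
      rw [← h3]
      exact Finset.sum_congr rfl fun j _ => mul_comm _ _
    have h4 := Fintype.linearIndependent_iff.1 (finBasis K W).linearIndependent v h1
    exact funext h4
  obtain ⟨g, hg⟩ := LinearMap.exists_leftInverse_of_injective _ (LinearMap.ker_eq_bot.2 hinj)
  refine ⟨LinearMap.toMatrix' g, ?_⟩
  have h1 : LinearMap.toMatrix' (g ∘ₗ Matrix.mulVecLin (bm W)) =
      LinearMap.toMatrix' g * bm W := by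
    rw [LinearMap.toMatrix'_comp]
    congr 1
    exact LinearMap.toMatrix'_toLin' _
  rw [← h1, hg, LinearMap.toMatrix'_id]

theorem bm_rel (g : G) : (ρ g : Matrix (Fin n) (Fin n) K) * bm W =
    bm W * LinearMap.toMatrix (finBasis K W) (finBasis K W) (res ρ W hW g) := by
  ext a j
  have h1 : ((res ρ W hW g (finBasis K W j) : W) : Fin n → K) =
      (ρ g : Matrix (Fin n) (Fin n) K) *ᵥ ((finBasis K W j : W) : Fin n → K) := rfl
  have h2 := (finBasis K W).sum_repr (res ρ W hW g (finBasis K W j))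
  have h3 : ((∑ i, (finBasis K W).repr (res ρ W hW g (finBasis K W j)) i • finBasis K W i : W) :
      Fin n → K) a = ((ρ g : Matrix (Fin n) (Fin n) K) *ᵥ
        ((finBasis K W j : W) : Fin n → K)) a := by rw [h2, h1]
  rw [Matrix.mul_apply, Matrix.mul_apply]
  have h4 : ((ρ g : Matrix (Fin n) (Fin n) K) *ᵥ ((finBasis K W j : W) : Fin n → K)) a =
      ∑ i, (ρ g : Matrix (Fin n) (Fin n) K) a i * bm W i j := rfl
  rw [← h4, ← h3, Submodule.coe_sum, Finset.sum_apply]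
  refine Finset.sum_congr rfl fun i _ => ?_
  rw [LinearMap.toMatrix_apply, Submodule.coe_smul, Pi.smul_apply, smul_eq_mul, mul_comm]
  rfl

end basis

variable {F : Type} [Field F] [NumberField F] {n : ℕ}

/-- **The determinant of an isotropic stable subspace** of a Hodge-Tate representation. -/
theorem det_char (ρ : GF F →* GL (Fin n) ℚ_[ℓ]) (hρ : Continuous ρ) (m : Fin n → ℤ)
    (hm : Function.Injective m) (hHT : HodgeTate ρ m) (w : ℤ)
    (J : Matrix (Fin n) (Fin n) ℚ_[ℓ]) (hJ : J.det ≠ 0)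
    (hpol : ∀ g, (mat ρ g)ᵀ * J * mat ρ g =
        (((chi F ℓ g : ℤ_[ℓ]ˣ) : ℤ_[ℓ]) : ℚ_[ℓ]) ^ (-w) • J)
    (W : Submodule ℚ_[ℓ] (Fin n → ℚ_[ℓ])) (hW : ∀ g, W ≤ W.comap (act ρ g))
    (hiso : ∀ x ∈ W, ∀ y ∈ W, x ⬝ᵥ J *ᵥ y = 0) :
    ∃ (f : GF ℚ ⧸ HH F → Fin (finrank ℚ_[ℓ] W) → Fin n) (S : ℤ) (N : ℕ),
      (∀ q, Function.Injective (f q)) ∧ (∀ q i j, m (f q i) + m (f q j) ≠ w) ∧
      (∀ [Fintype (GF ℚ ⧸ HH F)], S = ∑ q, ∑ i, m (f q i)) ∧ 0 < N ∧
      ∀ g, MonoidHom.transfer ((dt ρ W hW).comp (cc F)) g ^ N = chiE ℓ ℚ_[ℓ] g ^ (-(S * N)) := by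
  classical
  let _ : Fintype (GF ℚ ⧸ HH F) := Fintype.ofFinite _
  obtain ⟨ι, res', hres⟩ := exists_res ℓ
  set H₀ : Subgroup Gal(PadicAlgCl ℓ/ℚ_[ℓ]) := (HH F).normalCore.comap res' with hH₀
  have hfi : H₀.FiniteIndex := by
    constructor
    rw [hH₀, Subgroup.index_comap]
    exact (Subgroup.instFiniteIndex_subgroupOf (HH F).normalCore res'.range).index_ne_zero
  -- the embeddings
  set τ : GF ℚ ⧸ HH F → AlgebraicClosure F →+* PadicAlgCl ℓ := fun q =>
    ι.comp (((q.out : AlgebraicClosure ℚ ≃+* AlgebraicClosure ℚ) :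
      AlgebraicClosure ℚ →+* AlgebraicClosure ℚ).comp
        (ee F : AlgebraicClosure F →+* AlgebraicClosure ℚ)) with hτ
  set γ : GF ℚ ⧸ HH F → Gal(PadicAlgCl ℓ/ℚ_[ℓ]) → GF F := fun q σ =>
    if hσ : res' σ ∈ (HH F).normalCore then cc F ⟨q.out⁻¹ * res' σ * q.out, core_conj hσ q.out⟩
      else 1 with hγ
  have hγτ : ∀ q, ∀ σ ∈ H₀, ∀ x, σ (τ q x) = τ q (γ q σ x) := by
    intro q σ hσ x
    have hσ' : res' σ ∈ (HH F).normalCore := hσ
    have e1 : γ q σ = cc F ⟨q.out⁻¹ * res' σ * q.out, core_conj hσ' q.out⟩ := dif_pos hσ'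
    rw [e1]
    show σ (ι (q.out (ee F x))) = ι (q.out (ee F (cc F _ x)))
    rw [ee_cc, hres]
    congr 1
    show (res' σ) (q.out (ee F x)) = q.out ((q.out⁻¹ * res' σ * q.out) (ee F x))
    have e2 : q.out * (q.out⁻¹ * res' σ * q.out) = res' σ * q.out := by group
    have e3 := congrArg (fun g : GF ℚ => g (ee F x)) e2
    exact e3.symm
  obtain ⟨L, hL⟩ := bm_left (K := ℚ_[ℓ]) W
  have key : ∀ q : GF ℚ ⧸ HH F, ∃ (f : Fin (finrank ℚ_[ℓ] W) → Fin n) (y : ℂ_[ℓ]),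
      Function.Injective f ∧ (∀ i j, m (f i) + m (f j) ≠ w) ∧ y ≠ 0 ∧
      ∀ σ ∈ H₀, cpMap ℓ σ y = kc σ (∑ i, m (f i)) *
        al ℓ ((dt ρ W hW (γ q σ) : ℚ_[ℓ]ˣ) : ℚ_[ℓ]) * y := by
    intro q
    obtain ⟨M, hM, hMσ⟩ := hHT (τ q)
    obtain ⟨f, y, hf, hfw, hy, hyσ⟩ := weights H₀ (fun σ => mat ρ (γ q σ)) M hM m hm (by
      intro σ hσ
      have e1 := hMσ σ (γ q σ) (hγτ q σ hσ)
      have e2 : dg σ m = Matrix.diagonal fun i =>
          algebraMap ℚ_[ℓ] ℂ_[ℓ] ((kq ℓ σ : ℚ_[ℓ]) ^ (-m i)) := by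
        unfold dg kc
        congr 1
        funext i
        rw [Units.val_zpow_eq_zpow_val]
      rw [e2]
      exact e1) (bm W) L hL
      (fun σ => LinearMap.toMatrix (finBasis ℚ_[ℓ] W) (finBasis ℚ_[ℓ] W) (res ρ W hW (γ q σ)))
      (fun σ _ => bm_rel ρ W hW (γ q σ)) J hJ w (by
        intro σ hσ
        rw [hpol, chi_res' (hγτ q σ hσ), Units.val_zpow_eq_zpow_val, coe_kq]) (by
        ext i j
        have e1 := hiso _ (finBasis ℚ_[ℓ] W i).2 _ (finBasis ℚ_[ℓ] W j).2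
        rw [Matrix.mul_assoc, Matrix.mul_apply, Matrix.zero_apply]
        rw [dotProduct] at e1
        rw [← e1]
        refine Finset.sum_congr rfl fun a _ => ?_
        congr 1)
    refine ⟨f, y, hf, hfw, hy, fun σ hσ => ?_⟩
    rw [hyσ σ hσ, coe_dt, LinearMap.det_toMatrix]
  choose f y hf hfw hy hyσ using key
  set S : ℤ := ∑ q, ∑ i, m (f q i) with hS
  set θ : GF ℚ →* ℚ_[ℓ]ˣ := MonoidHom.transfer ((dt ρ W hW).comp (cc F)) with hθ
  have hψc : Continuous (dt ρ W hW) := continuous_dt ℓ ρ hρ W hW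
  have hθc : Continuous θ := continuous_transfer (isOpen_core F) _ (hψc.comp (continuous_cc F))
  set ω : GF ℚ →* ℚ_[ℓ]ˣ := θ * (zpowGroupHom S).comp (chiE ℓ ℚ_[ℓ]) with hω
  have hωg : ∀ g, ω g = θ g * chiE ℓ ℚ_[ℓ] g ^ S := fun g => rfl
  have hωc : Continuous ω := by
    have e1 : Continuous fun g => θ g * chiE ℓ ℚ_[ℓ] g ^ S :=
      hθc.mul (continuous_chiE.zpow S)
    exact e1
  have hx0 : ∏ q, y q ≠ 0 := Finset.prod_ne_zero_iff.2 fun q _ => hy q
  obtain ⟨N, hN, hNg⟩ := char_trivial ω hωc ι res' hres H₀ hx0 (by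
    intro σ hσ
    have hσ' : res' σ ∈ (HH F).normalCore := hσ
    rw [map_prod, Finset.prod_congr rfl fun q _ => hyσ q σ hσ, Finset.prod_mul_distrib,
      Finset.prod_mul_distrib]
    congr 1
    rw [hωg, Units.val_mul, map_mul, mul_comm (al ℓ _), ← kc_sum, ← hS]
    congr 1
    · rw [chiE_res (hres σ)]
      rfl
    · rw [← map_prod, hθ, transfer_core _ hσ', ← Units.coe_prod]
      congr 2
      refine Finset.prod_congr rfl fun q _ => ?_
      have e1 : γ q σ = cc F ⟨q.out⁻¹ * res' σ * q.out, core_conj hσ' q.out⟩ := dif_pos hσ'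
      rw [e1]
      rfl)
  refine ⟨f, S, N, hf, hfw, ?_, hN, fun g => ?_⟩
  · intro inst
    rw [hS]
    have : inst = Fintype.ofFinite _ := Subsingleton.elim _ _
    subst this
    rfl
  · have e1 := hNg g
    rw [hωg, mul_pow] at e1
    rw [_root_.zpow_neg, _root_.zpow_mul, _root_.zpow_natCast]
    exact eq_inv_of_mul_eq_one_left e1

end Pool.Agent.V8H84.HT
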