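import Pool.Agent.V8H84.HT.Place

/-!
# Semisimplicity from Hodge-Tate weights
-/

set_option autoImplicit false
set_option linter.unusedSectionVars false

namespace Pool.Agent.V8H84.HT

open NumberField IsDedekindDomain Pool.Agent.W569.FM Pool.Agent.W571.FM Pool.Agent.Y115.R
open Pool.Agent.Y115.T Pool.Agent.Y115.Chi Pool.Agent.Y115.CQ Module Matrix
open Pool.Agent.W292.FM

/-- A polarized representation without isotropic stable subspaces is semisimple. -/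
theorem compl_of_no_iso {ℓ : ℕ} [hℓ : Fact ℓ.Prime] {F : Type} [Field F] {n : ℕ}
    (ρ : GF F →* GL (Fin n) ℚ_[ℓ]) (w : ℤ) (J : Matrix (Fin n) (Fin n) ℚ_[ℓ]) (hJ : J.det ≠ 0)
    (hsym : Jᵀ = J ∨ Jᵀ = -J)
    (hpol : ∀ g, (mat ρ g)ᵀ * J * mat ρ g =
        (((chi F ℓ g : ℤ_[ℓ]ˣ) : ℤ_[ℓ]) : ℚ_[ℓ]) ^ (-w) • J)
    (hno : ∀ (b : LinearMap.BilinForm ℚ_[ℓ] (Fin n → ℚ_[ℓ]))
      (U : Submodule ℚ_[ℓ] (Fin n → ℚ_[ℓ])), (∀ x y, b x y = x ⬝ᵥ J *ᵥ y) →
      (∀ x, (∀ y, b x y = 0) → x = 0) →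
      (∀ g x y, b (act ρ g x) (act ρ g y) =
        (((chi F ℓ g : ℤ_[ℓ]ˣ) : ℤ_[ℓ]) : ℚ_[ℓ]) ^ (-w) * b x y) →
      (∀ g, U ≤ U.comap (act ρ g)) → (∀ x ∈ U, ∀ y ∈ U, b x y = 0) →
      0 < finrank ℚ_[ℓ] U → 2 * finrank ℚ_[ℓ] U ≤ n → False)
    (W : Submodule ℚ_[ℓ] (Fin n → ℚ_[ℓ])) (hW : Stable ρ W) :
    ∃ W' : Submodule ℚ_[ℓ] (Fin n → ℚ_[ℓ]), Stable ρ W' ∧ IsCompl W W' := by
  set b : LinearMap.BilinForm ℚ_[ℓ] (Fin n → ℚ_[ℓ]) := Matrix.toBilin' J with hb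
  have hbapp : ∀ x y, b x y = x ⬝ᵥ J *ᵥ y := fun x y => Matrix.toBilin'_apply' J x y
  have hnd : b.Nondegenerate := LinearMap.BilinForm.nondegenerate_toBilin'_of_det_ne_zero' J hJ
  have hnd' : ∀ x, (∀ y, b x y = 0) → x = 0 := hnd.1
  have hswap : ∀ x y, b y x = b x y ∨ b y x = - b x y := by
    intro x y
    have h1 : b y x = x ⬝ᵥ Jᵀ *ᵥ y := by
      rw [hbapp, Matrix.dotProduct_mulVec x, Matrix.vecMul_transpose, dotProduct_comm]
    rcases hsym with h | h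
    · left
      rw [h1, h, hbapp]
    · right
      rw [h1, h, hbapp, neg_mulVec, dotProduct_neg]
  have hrefl : b.IsRefl := by
    intro x y h
    rcases hswap x y with h1 | h1
    · rw [h1, h]
    · rw [h1, h, neg_zero]
  have hmul : ∀ g x y, b (act ρ g x) (act ρ g y) =
      (((chi F ℓ g : ℤ_[ℓ]ˣ) : ℤ_[ℓ]) : ℚ_[ℓ]) ^ (-w) * b x y := by
    intro g x y
    have h0 : ∀ z, act ρ g z = mat ρ g *ᵥ z := fun z => rfl
    rw [hbapp, hbapp, h0, h0, ← smul_eq_mul, ← dotProduct_smul, ← smul_mulVec,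
      ← hpol g, ← Matrix.mulVec_mulVec, ← Matrix.mulVec_mulVec]
    rw [Matrix.dotProduct_mulVec x, Matrix.vecMul_transpose]
  have hstab : Stable ρ (b.orthogonal W) := by
    intro g x hx
    rw [LinearMap.BilinForm.mem_orthogonal_iff] at hx ⊢
    intro y hy
    have h1 : act ρ g⁻¹ y ∈ W := hW g⁻¹ y hy
    have h2 := hmul g (act ρ g⁻¹ y) x
    have h3 : act ρ g (act ρ g⁻¹ y) = y := by
      have h4 := act_mul ρ g g⁻¹
      rw [mul_inv_cancel, act_one] at h4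
      have h5 := congrArg (fun L : Module.End ℚ_[ℓ] (Fin n → ℚ_[ℓ]) => L y) h4
      exact h5.symm
    rw [h3, hx _ h1, mul_zero] at h2
    exact h2
  refine ⟨b.orthogonal W, hstab, ?_⟩
  rw [LinearMap.BilinForm.isCompl_orthogonal_iff_disjoint hrefl, disjoint_iff]
  by_contra hcon
  set U : Submodule ℚ_[ℓ] (Fin n → ℚ_[ℓ]) := W ⊓ b.orthogonal W with hU
  have hUst : ∀ g, U ≤ U.comap (act ρ g) := by
    intro g x hx
    exact ⟨hW g x hx.1, hstab g x hx.2⟩
  have hiso : ∀ x ∈ U, ∀ y ∈ U, b x y = 0 := fun x hx y hy => hy.2 x hx.1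
  have hk0 : 0 < finrank ℚ_[ℓ] U := by
    rw [Nat.pos_iff_ne_zero]
    intro h
    exact hcon (Submodule.finrank_eq_zero.1 h)
  have h2k : 2 * finrank ℚ_[ℓ] U ≤ n := by
    have h1 : U ≤ b.orthogonal U := fun x hx y hy => hiso y hy x hx
    have h2 := Submodule.finrank_mono h1
    rw [LinearMap.BilinForm.finrank_orthogonal hnd, finrank_fin_fun] at h2
    have h3 : finrank ℚ_[ℓ] U ≤ n := by
      have := Submodule.finrank_le U
      rwa [finrank_fin_fun] at this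
    omega
  exact hno b U hbapp hnd' hmul hUst hiso hk0 h2k

variable {F : Type} [Field F] [NumberField F] {ℓ : ℕ} [hℓ : Fact ℓ.Prime] {n : ℕ}

/-- the number of cosets is the degree -/
theorem card_quot {p : ℕ} (hp : p.Prime) (hur : Unram F p) :
    Nat.card (GF ℚ ⧸ HH F) = finrank ℚ F := by
  classical
  let _ : Fintype (GF ℚ ⧸ HH F) := Fintype.ofFinite _
  obtain ⟨P, σ, hP, hpP, hσ⟩ := exists_frobQ hp
  obtain ⟨S, f, V, hS, hf, hVS, -, hfib, hsum⟩ := fibers (F := F) hp hP hpP hσ hur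
  rw [← hsum, Nat.card_eq_fintype_card, ← Finset.card_univ,
    Finset.card_eq_sum_card_fiberwise (s := Finset.univ) (t := S) (f := V)
      (fun q _ => hVS q)]
  refine Finset.sum_congr rfl fun v hv => ?_
  rw [← hfib v hv, Nat.card_eq_fintype_card, Fintype.card_subtype]

/-- **The two relations given by an isotropic stable subspace.** -/
theorem relations_of_iso (ρ : GF F →* GL (Fin n) ℚ_[ℓ]) (hρ : Continuous ρ) (w : ℤ)
    (m : Fin n → ℤ) (hm : Function.Injective m) (hHT : HodgeTate ρ m)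
    (J : Matrix (Fin n) (Fin n) ℚ_[ℓ]) (hJ : J.det ≠ 0)
    (hpol : ∀ g, (mat ρ g)ᵀ * J * mat ρ g =
        (((chi F ℓ g : ℤ_[ℓ]ˣ) : ℤ_[ℓ]) : ℚ_[ℓ]) ^ (-w) • J)
    (P : HeightOneSpectrum (𝓞 F) → Polynomial ℚ) (T : Set ℕ) (hT0 : T.Nonempty)
    (hT : ∀ p ∈ T, p.Prime ∧ p ≠ ℓ ∧ UnramifiedIn F p)
    (hP : ∀ p ∈ T, ∀ v, Above v p → GoodAt ρ w v (P v))
    (b : LinearMap.BilinForm ℚ_[ℓ] (Fin n → ℚ_[ℓ]))
    (U : Submodule ℚ_[ℓ] (Fin n → ℚ_[ℓ])) (hbapp : ∀ x y, b x y = x ⬝ᵥ J *ᵥ y)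
    (hnd : ∀ x, (∀ y, b x y = 0) → x = 0)
    (hmul : ∀ g x y, b (act ρ g x) (act ρ g y) =
        (((chi F ℓ g : ℤ_[ℓ]ˣ) : ℤ_[ℓ]) : ℚ_[ℓ]) ^ (-w) * b x y)
    (hU : ∀ g, U ≤ U.comap (act ρ g)) (hiso : ∀ x ∈ U, ∀ y ∈ U, b x y = 0) :
    HodgeRelation m w (finrank ℚ F) (finrank ℚ_[ℓ] U) ∧
      ∀ p ∈ T, FrobeniusRelation P w p (finrank ℚ_[ℓ] U) := by
  classical
  obtain ⟨f, S, N, hf, hfw, hS, hN, hkey⟩ := det_char ρ hρ m hm hHT w J hJ hpol U hU
    (fun x hx y hy => by rw [← hbapp]; exact hiso x hx y hy)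
  have hgood := fun p hp v hv (Q : Ideal (𝓞 (AlgebraicClosure F))) hQ hQv =>
    And.intro ((hP p hp v hv).unramified Q ⟨hQ, hQv⟩) ((hP p hp v hv).frobenius Q ⟨hQ, hQv⟩)
  have hpure := fun p hp v hv => (hP p hp v hv).pure
  obtain ⟨A, hA, hrel⟩ := Pool.Agent.V8H84.HTP.exists_A' (F := F) (E := ℚ) ℓ ρ hρ w
    (algebraMap ℚ ℚ_[ℓ]) (algebraMap ℚ ℂ) T hT P hgood hpure U hU N (-(S * N)) hN hkey
  constructor
  · obtain ⟨p, hp⟩ := hT0
    have h1 := (hrel p hp).1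
    have hN0 : (N : ℤ) ≠ 0 := Int.natCast_ne_zero.2 hN.ne'
    have h2 : 2 * S = w * finrank ℚ_[ℓ] U * finrank ℚ F := by
      apply mul_left_cancel₀ hN0
      linear_combination -h1
    let _ : Fintype (GF ℚ ⧸ HH F) := Fintype.ofFinite _
    have hcard : Fintype.card (GF ℚ ⧸ HH F) = finrank ℚ F := by
      rw [← Nat.card_eq_fintype_card]
      exact card_quot (hT p hp).1 (hT p hp).2.2
    let e : Fin (finrank ℚ F) ≃ GF ℚ ⧸ HH F := (Fintype.equivFinOfCardEq hcard).symm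
    refine ⟨fun j => Finset.univ.image (f (e j)), ?_, ?_⟩
    · intro j
      refine ⟨?_, ?_⟩
      · rw [Finset.card_image_of_injective _ (hf (e j)), Finset.card_univ, Fintype.card_fin]
      · intro a ha c hc
        obtain ⟨i, -, rfl⟩ := Finset.mem_image.1 ha
        obtain ⟨i', -, rfl⟩ := Finset.mem_image.1 hc
        exact hfw (e j) i i'
    · rw [← h2, hS]
      congr 1
      rw [← e.sum_comp]
      refine Finset.sum_congr rfl fun j _ => ?_
      rw [Finset.sum_image fun a _ c _ h => hf (e j) h]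
  · intro p hp
    refine ⟨A, fun v hv => ⟨(hA p hp v hv).1, (hA p hp v hv).2.2 b hnd hmul hiso⟩, ?_⟩
    exact (hrel p hp).2

theorem exists_embedding (F : Type) [Field F] [NumberField F] (ℓ : ℕ) [Fact ℓ.Prime] :
    ∃ (H₀ : Subgroup Gal(PadicAlgCl ℓ/ℚ_[ℓ])) (_ : H₀.FiniteIndex)
      (τ : AlgebraicClosure F →+* PadicAlgCl ℓ) (γ : Gal(PadicAlgCl ℓ/ℚ_[ℓ]) → GF F),
      ∀ σ ∈ H₀, ∀ x, σ (τ x) = τ (γ σ x) := by
  classical
  obtain ⟨ι, res', hres⟩ := exists_res ℓ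
  set H₀ : Subgroup Gal(PadicAlgCl ℓ/ℚ_[ℓ]) := (HH F).comap res' with hH₀
  have hfi : H₀.FiniteIndex := by
    constructor
    rw [hH₀, Subgroup.index_comap]
    exact (Subgroup.instFiniteIndex_subgroupOf (HH F) res'.range).index_ne_zero
  refine ⟨H₀, hfi, ι.comp (ee F : AlgebraicClosure F →+* AlgebraicClosure ℚ),
    fun σ => if hσ : res' σ ∈ HH F then cc F ⟨res' σ, hσ⟩ else 1, ?_⟩
  intro σ hσ x
  have hσ' : res' σ ∈ HH F := hσ
  have e1 : (if hσ : res' σ ∈ HH F then cc F ⟨res' σ, hσ⟩ else 1) = cc F ⟨res' σ, hσ'⟩ :=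
    dif_pos hσ'
  show σ (ι (ee F x)) = ι (ee F ((if hσ : res' σ ∈ HH F then cc F ⟨res' σ, hσ⟩ else 1) x))
  rw [e1, ee_cc, hres]

/-- the weights are symmetric -/
theorem weights_symm (ρ : GF F →* GL (Fin n) ℚ_[ℓ]) (w : ℤ)
    (m : Fin n → ℤ) (hHT : HodgeTate ρ m)
    (J : Matrix (Fin n) (Fin n) ℚ_[ℓ]) (hJ : J.det ≠ 0)
    (hpol : ∀ g, (mat ρ g)ᵀ * J * mat ρ g =
        (((chi F ℓ g : ℤ_[ℓ]ˣ) : ℤ_[ℓ]) : ℚ_[ℓ]) ^ (-w) • J) (a : Fin n) :
    ∃ b, m a + m b = w := by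
  obtain ⟨H₀, hfi, τ, γ, hγ⟩ := exists_embedding F ℓ
  obtain ⟨M, hM, hMσ⟩ := hHT τ
  refine gram H₀ (fun σ => mat ρ (γ σ)) M hM m (by
      intro σ hσ
      have e1 := hMσ σ (γ σ) (hγ σ hσ)
      have e2 : dg σ m = Matrix.diagonal fun i =>
          algebraMap ℚ_[ℓ] ℂ_[ℓ] ((kq ℓ σ : ℚ_[ℓ]) ^ (-m i)) := by
        unfold dg kc
        congr 1
        funext i
        rw [Units.val_zpow_eq_zpow_val]
      rw [e2]
      exact e1) J hJ w (by
        intro σ hσ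
        rw [hpol, chi_res' (hγ σ hσ), Units.val_zpow_eq_zpow_val, coe_kq]) a

/-- The numerical conditions under which there are no relations between the weights. -/
theorem no_relation {m : Fin n → ℤ} (hm : Function.Injective m) {w : ℤ}
    (hsymm : ∀ a, ∃ b, m a + m b = w) {d : ℕ} (hd : 0 < d)
    (h : (d = 1 ∧ n ≤ 5) ∨ (d = 1 ∧ Odd w ∧ n ≤ 7) ∨ (Odd d ∧ n ≤ 3)) {k : ℕ} (hk : 0 < k)
    (hkn : 2 * k ≤ n) : ¬ HodgeRelation m w d k := by
  rintro ⟨I, hI, hsum⟩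
  have key : ∀ d, d = 1 → ∀ (I : Fin d → Finset (Fin n)),
      (∀ j, (I j).card = k ∧ ∀ a ∈ I j, ∀ b ∈ I j, m a + m b ≠ w) →
      2 * ∑ j, ∑ a ∈ I j, m a = w * k * d → ∃ I : Finset (Fin n), I.card = k ∧
        (∀ a ∈ I, ∀ b ∈ I, m a + m b ≠ w) ∧ 2 * ∑ a ∈ I, m a = w * k := by
    rintro d rfl I hI hsum
    refine ⟨I 0, (hI 0).1, (hI 0).2, ?_⟩
    rw [Fin.sum_univ_one] at hsum
    push_cast at hsum
    linarith
  have hk2 : ∀ I : Finset (Fin n), I.card = k → (∀ a ∈ I, ∀ b ∈ I, m a + m b ≠ w) →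
      2 * ∑ a ∈ I, m a = w * k → k ≠ 1 ∧ k ≠ 2 := by
    intro I hI hiso hsum
    refine ⟨?_, ?_⟩
    · rintro rfl
      obtain ⟨a, rfl⟩ := Finset.card_eq_one.1 hI
      rw [Finset.sum_singleton] at hsum
      apply hiso a (Finset.mem_singleton_self a) a (Finset.mem_singleton_self a)
      push_cast at hsum
      linarith
    · rintro rfl
      obtain ⟨a, b, hab, rfl⟩ := Finset.card_eq_two.1 hI
      rw [Finset.sum_pair hab] at hsum
      apply hiso a (Finset.mem_insert_self _ _) b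
        (Finset.mem_insert_of_mem (Finset.mem_singleton_self b))
      push_cast at hsum
      linarith
  rcases h with ⟨hd1, hn⟩ | ⟨hd1, hw, hn⟩ | ⟨hdodd, hn⟩
  · obtain ⟨I, e1, e2, e3⟩ := key d hd1 I hI hsum
    have := hk2 I e1 e2 e3
    omega
  · obtain ⟨I, e1, e2, e3⟩ := key d hd1 I hI hsum
    have := hk2 I e1 e2 e3
    have hk3 : k = 3 := by omega
    subst hk3
    obtain ⟨c, hc⟩ := hw
    push_cast at e3
    omega
  · have hk1 : k = 1 := by omega
    subst hk1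
    have hel : ∀ j, ∃ a, I j = {a} := fun j => Finset.card_eq_one.1 (hI j).1
    choose a ha using hel
    have hne : ∀ j, m (a j) + m (a j) ≠ w := fun j => (hI j).2 (a j) (by rw [ha]; simp) (a j)
      (by rw [ha]; simp)
    have hsum' : 2 * ∑ j, m (a j) = w * d := by
      have e1 : ∀ j, ∑ a ∈ I j, m a = m (a j) := fun j => by rw [ha, Finset.sum_singleton]
      rw [Finset.sum_congr rfl fun j _ => e1 j] at hsum
      push_cast at hsum
      linarith
    -- all the weights are `x` or `w - x`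
    let j₀ : Fin d := ⟨0, hd⟩
    obtain ⟨b, hb⟩ := hsymm (a j₀)
    have hab : a j₀ ≠ b := by
      rintro rfl
      exact hne j₀ hb
    have hall : ∀ j, m (a j) = m (a j₀) ∨ m (a j) = w - m (a j₀) := by
      intro j
      by_cases h1 : a j = a j₀
      · left
        rw [h1]
      by_cases h2 : a j = b
      · right
        rw [h2]
        linarith
      exfalso
      obtain ⟨c, hc⟩ := hsymm (a j)
      have h3 : c = a j := by
        have h4 : c ≠ a j₀ := by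
          rintro rfl
          apply h2
          apply hm
          linarith
        have h5 : c ≠ b := by
          rintro rfl
          apply h1
          apply hm
          linarith
        -- at most three elements
        by_contra h6
        have h7 : ({a j₀, b, a j, c} : Finset (Fin n)).card ≤ n := by
          have := Finset.card_le_univ ({a j₀, b, a j, c} : Finset (Fin n))
          rwa [Fintype.card_fin] at this
        rw [Finset.card_insert_of_notMem, Finset.card_insert_of_notMem,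
          Finset.card_insert_of_notMem, Finset.card_singleton] at h7
        · omega
        · rw [Finset.mem_singleton]
          exact fun h => h6 h.symm
        · simp only [Finset.mem_insert, Finset.mem_singleton, not_or]
          exact ⟨fun h => h2 h.symm, fun h => h5 h.symm⟩
        · simp only [Finset.mem_insert, Finset.mem_singleton, not_or]
          exact ⟨hab, fun h => h1 h.symm, fun h => h4 h.symm⟩
      rw [h3] at hc
      exact hne j hc
    set x := 2 * m (a j₀) - w with hx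
    have hx0 : x ≠ 0 := fun h => hne j₀ (by linarith)
    have hterm : ∀ j, ∃ s : ℤ, Odd s ∧ 2 * m (a j) - w = s * x := by
      intro j
      rcases hall j with h1 | h1
      · exact ⟨1, odd_one, by rw [h1]; ring⟩
      · exact ⟨-1, by decide, by rw [h1, hx]; ring⟩
    choose s hs hsx using hterm
    have h8 : (∑ j, s j) * x = 0 := by
      rw [Finset.sum_mul, ← Finset.sum_congr rfl fun j _ => hsx j, Finset.sum_sub_distrib,
        ← Finset.mul_sum, hsum', Finset.sum_const, Finset.card_univ, Fintype.card_fin]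
      rw [nsmul_eq_mul]
      ring
    choose c hc using hs
    have h9 : ∑ j, s j = 2 * ∑ j, c j + d := by
      rw [Finset.sum_congr rfl fun j _ => hc j, Finset.sum_add_distrib, ← Finset.mul_sum,
        Finset.sum_const, Finset.card_univ, Fintype.card_fin]
      simp
    obtain ⟨e, he⟩ := hdodd
    rcases mul_eq_zero.1 h8 with h10 | h10
    · omega
    · exact hx0 h10

/-- **Semisimplicity from Hodge-Tate weights.** -/
theorem main (ρ : GF F →* GL (Fin n) ℚ_[ℓ]) (hρ : Continuous ρ) (w : ℤ)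
    (m : Fin n → ℤ) (hm : Function.Injective m) (hHT : HodgeTate ρ m) (hpol : Polarized ρ w)
    (P : HeightOneSpectrum (𝓞 F) → Polynomial ℚ) (T : Set ℕ) (hT0 : T.Nonempty)
    (hT : ∀ p ∈ T, p.Prime ∧ p ≠ ℓ ∧ UnramifiedIn F p)
    (hP : ∀ p ∈ T, ∀ v, Above v p → GoodAt ρ w v (P v))
    (hrel : (∀ k, 0 < k → 2 * k ≤ n → ¬ HodgeRelation m w (finrank ℚ F) k ∨
        ∃ p ∈ T, ¬ FrobeniusRelation P w p k) ∨
      (finrank ℚ F = 1 ∧ n ≤ 5) ∨ (finrank ℚ F = 1 ∧ Odd w ∧ n ≤ 7) ∨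
      (Odd (finrank ℚ F) ∧ n ≤ 3)) : Semisimple ρ := by
  obtain ⟨J, hJ, hsym, hJρ⟩ := hpol
  have hsymm := weights_symm ρ w m hHT J hJ hJρ
  have hrel' : ∀ k, 0 < k → 2 * k ≤ n → ¬ HodgeRelation m w (finrank ℚ F) k ∨
      ∃ p ∈ T, ¬ FrobeniusRelation P w p k := by
    rcases hrel with h | h
    · exact h
    · exact fun k hk hkn => Or.inl (no_relation hm hsymm Module.finrank_pos h hk hkn)
  intro W hW
  refine compl_of_no_iso ρ w J hJ hsym hJρ ?_ W hW
  intro b U hbapp hnd hmul hU hiso hk hkn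
  obtain ⟨h1, h2⟩ := relations_of_iso ρ hρ w m hm hHT J hJ hJρ P T hT0 hT hP b U hbapp hnd hmul
    hU hiso
  rcases hrel' _ hk hkn with h | ⟨p, hp, h⟩
  · exact h h1
  · exact h (h2 p hp)

end Pool.Agent.V8H84.HT
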