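import Pool.Agent.V8H84.HT.Tower

/-!
# Tate's theorem on semi-invariants of `ℂ_p`
-/

set_option autoImplicit false
set_option linter.unusedSectionVars false

namespace Pool.Agent.V8H84.HT

open Pool.Agent.W292.FM Polynomial

variable {p : ℕ} [hp : Fact p.Prime]

theorem kap_eq_one {σ : Gal(PadicAlgCl p/ℚ_[p])} (h : ∀ x ∈ Kinf p, σ x = x) : kap p σ = 1 := by
  apply Units.ext
  rw [Units.val_one]
  refine PadicInt.ext_of_toZModPow.mp fun n => ?_
  rw [map_one]
  obtain ⟨z, hz⟩ := exists_root (p := p) n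
  have h1 : z ∈ Kinf p := IntermediateField.subset_adjoin _ _ ⟨n, hz.pow_eq_one⟩
  have h2 := kap_spec σ hz.pow_eq_one
  rw [h z h1] at h2
  have hne : NeZero (p ^ n) := ⟨pow_ne_zero _ hp.out.ne_zero⟩
  have h3 : z ^ (km p n σ).val = z ^ ((1 : ℕ) : ZMod (p ^ n)).val := by
    rw [← h2, pow_val_cast hz.pow_eq_one, pow_one]
  have h4 := hz.pow_inj (ZMod.val_lt _) (ZMod.val_lt _) h3
  have h5 := ZMod.val_injective _ h4
  rw [Nat.cast_one] at h5
  exact h5

theorem approx {x : ℂ_[p]} (hx : ∀ σ : Gal(PadicAlgCl p/ℚ_[p]), kap p σ = 1 → cpMap p σ x = x)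
    {δ : ℝ} (hδ : 0 < δ) : ∃ m, ∃ b : PadicAlgCl p, Lvl m b ∧ ‖x - (b : ℂ_[p])‖ ≤ δ := by
  have hp1 : (1 : ℝ) < p := by exact_mod_cast hp.out.one_lt
  have hp0 : (0 : ℝ) < p := by linarith
  have hp2 : (1 : ℝ) ≤ (p : ℝ) ^ 2 := one_le_pow₀ hp1.le
  set r : ℝ := δ / (p : ℝ) ^ 2 with hr
  have hr0 : 0 < r := by positivity
  obtain ⟨y, hy⟩ := (UniformSpace.Completion.denseRange_coe (α := PadicAlgCl p)).exists_dist_lt x
    hr0
  rw [dist_eq_norm] at hy
  obtain ⟨b, hb, hyb⟩ := ax p (Kinf p) y r hr0.le (fun σ hσ => by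
    have h1 := hx σ (kap_eq_one hσ)
    have h2 : ((σ y - y : PadicAlgCl p) : ℂ_[p]) = cpMap p σ ((y : ℂ_[p]) - x) + (x - y) := by
      rw [map_sub, h1, cpMap_coe, UniformSpace.Completion.coe_sub]
      ring
    rw [← PadicComplex.norm_extends, h2]
    refine (IsUltrametricDist.norm_add_le_max _ _).trans (max_le ?_ hy.le)
    rw [norm_cpMap, norm_sub_rev]
    exact hy.le)
  obtain ⟨m, hm⟩ := exists_lvl hb
  refine ⟨m, b, hm, ?_⟩
  have h3 : x - (b : ℂ_[p]) = (x - y) + ((y - b : PadicAlgCl p) : ℂ_[p]) := by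
    rw [UniformSpace.Completion.coe_sub]
    ring
  rw [h3]
  refine (IsUltrametricDist.norm_add_le_max _ _).trans (max_le ?_ ?_)
  · refine hy.le.trans ?_
    rw [hr]
    exact div_le_self hδ.le hp2
  · rw [PadicComplex.norm_extends]
    refine hyb.trans ?_
    rw [hr]
    field_simp
    exact le_refl _

/-- **Tate's theorem.** If the Galois group of `ℚ_p` acts on a nonzero element of `ℂ_p` through
scalars which depend only on the cyclotomic character, then these scalars are locally trivial. -/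
theorem tate {x : ℂ_[p]} (hx0 : x ≠ 0) (η : Gal(PadicAlgCl p/ℚ_[p]) → ℚ_[p])
    (h1 : ∀ σ, kap p σ = 1 → η σ = 1)
    (h : ∀ σ, cpMap p σ x = algebraMap ℚ_[p] ℂ_[p] (η σ) * x) :
    ∃ n, ∀ σ, km p n σ = 1 → η σ = 1 := by
  have hp1 : (1 : ℝ) < p := by exact_mod_cast hp.out.one_lt
  have hp0 : (0 : ℝ) < p := by linarith
  have hxn : 0 < ‖x‖ := norm_pos_iff.2 hx0
  have hfix : ∀ σ : Gal(PadicAlgCl p/ℚ_[p]), kap p σ = 1 → cpMap p σ x = x := by
    intro σ hσ
    rw [h σ, h1 σ hσ, map_one, one_mul]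
  have hη : ∀ σ, ‖η σ‖ = 1 := by
    intro σ
    have h2 := congrArg norm (h σ)
    rw [norm_cpMap, norm_mul] at h2
    have h3 : ‖algebraMap ℚ_[p] ℂ_[p] (η σ)‖ = ‖η σ‖ := norm_algebraMap' _ _
    rw [h3] at h2
    have h4 : ‖η σ‖ * ‖x‖ = 1 * ‖x‖ := by rw [one_mul]; exact h2.symm
    exact mul_right_cancel₀ hxn.ne' h4
  obtain ⟨m₀, a, ha, hxa⟩ := approx hfix (δ := ‖x‖ / (2 * p)) (by positivity)
  refine ⟨m₀ + 1, fun σ hσ => ?_⟩
  have ha' : Lvl (m₀ + 1) a := ha.mono (Nat.le_succ m₀)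
  have hsmall : (p : ℝ) * (‖x‖ / (2 * p)) < ‖x‖ := by
    have : (p : ℝ) * (‖x‖ / (2 * p)) = ‖x‖ / 2 := by field_simp
    rw [this]
    linarith
  have hxa2 : ‖x‖ / (2 * p) < ‖x‖ := by
    have h3 : ‖x‖ / (2 * p) ≤ (p : ℝ) * (‖x‖ / (2 * p)) := by
      have : 0 ≤ ‖x‖ / (2 * p) := by positivity
      nlinarith
    exact h3.trans_lt hsmall
  -- the key inequality
  have key : ∀ δ : ℝ, 0 < δ → δ ≤ ‖x‖ / (2 * p) → ‖1 - η σ‖ * ‖x‖ ≤ p * δ := by
    intro δ hδ hδ2
    obtain ⟨m₁, b, hb, hxb⟩ := approx hfix hδ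
    set m := max (m₀ + 1) m₁ with hm
    have hle : m₀ + 1 ≤ m := le_max_left _ _
    have hb' : Lvl m b := hb.mono (le_max_right _ _)
    set r := RR hle b with hr
    -- `‖r‖ = ‖x‖`
    have hba : ‖b - a‖ ≤ ‖x‖ / (2 * p) := by
      rw [← PadicComplex.norm_extends, UniformSpace.Completion.coe_sub]
      have h4 : ((b : ℂ_[p]) - (a : ℂ_[p])) = -(x - b) + (x - a) := by ring
      rw [h4]
      refine (IsUltrametricDist.norm_add_le_max _ _).trans (max_le ?_ hxa)
      rw [norm_neg]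
      exact hxb.trans hδ2
    have hra : ‖r - a‖ ≤ p * (‖x‖ / (2 * p)) := by
      have h5 : r - a = RR hle (b - a) := by
        rw [RR_sub, RR_of_lvl hle ha']
      rw [h5]
      refine (norm_RR_le hle (hb'.sub (ha'.mono hle))).trans ?_
      exact mul_le_mul_of_nonneg_left hba hp0.le
    have han : ‖a‖ = ‖x‖ := by
      rw [← PadicComplex.norm_extends]
      have h6 : (a : ℂ_[p]) = x + -(x - a) := by ring
      have h7 : ‖-(x - (a : ℂ_[p]))‖ < ‖x‖ := by
        rw [norm_neg]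
        exact hxa.trans_lt hxa2
      rw [h6, IsUltrametricDist.norm_add_eq_max_of_norm_ne_norm h7.ne', max_eq_left h7.le]
    have hrn : ‖r‖ = ‖x‖ := by
      have h6 : r = a + (r - a) := by ring
      have h7 : ‖r - a‖ < ‖a‖ := by
        rw [han]
        exact hra.trans_lt hsmall
      rw [h6, IsUltrametricDist.norm_add_eq_max_of_norm_ne_norm h7.ne', max_eq_left h7.le, han]
    -- invariance
    have hinv : RR hle (σ b - η σ • b) = (1 - η σ) • r := by
      rw [RR_sub, RR_gal hle hb' hσ, RR_smul, sub_smul, one_smul]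
    have hlvl : Lvl m (σ b) := by
      intro z hz
      obtain ⟨f, hf⟩ := hb' z hz
      refine ⟨f.comp (X ^ (km p m σ).val), ?_⟩
      rw [aeval_comp, map_pow, aeval_X, ← kap_spec σ hz.pow_eq_one, hf]
      exact (Polynomial.aeval_algHom_apply σ.toAlgHom z f).symm
    have hdiff : ‖σ b - η σ • b‖ ≤ δ := by
      rw [← PadicComplex.norm_extends, UniformSpace.Completion.coe_sub]
      have h8 : ((σ b : PadicAlgCl p) : ℂ_[p]) - ((η σ • b : PadicAlgCl p) : ℂ_[p]) =
          -(cpMap p σ (x - b)) + algebraMap ℚ_[p] ℂ_[p] (η σ) * (x - b) := by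
        rw [map_sub, h σ, cpMap_coe]
        have h9 : ((η σ • b : PadicAlgCl p) : ℂ_[p]) = algebraMap ℚ_[p] ℂ_[p] (η σ) * b := by
          rw [Algebra.smul_def, UniformSpace.Completion.coe_mul]
          rfl
        rw [h9]
        ring
      rw [h8]
      refine (IsUltrametricDist.norm_add_le_max _ _).trans (max_le ?_ ?_)
      · rw [norm_neg, norm_cpMap]
        exact hxb
      · rw [norm_mul]
        have h3 : ‖algebraMap ℚ_[p] ℂ_[p] (η σ)‖ = ‖η σ‖ := norm_algebraMap' _ _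
        rw [h3, hη, one_mul]
        exact hxb
    have h10 := norm_RR_le hle (hlvl.sub (hb'.smul (η σ)))
    rw [hinv, norm_smul, hrn] at h10
    exact h10.trans (mul_le_mul_of_nonneg_left hdiff hp0.le)
  by_contra hne
  have h11 : 0 < ‖1 - η σ‖ := norm_pos_iff.2 (sub_ne_zero.2 fun h => hne h.symm)
  set A := ‖1 - η σ‖ * ‖x‖ with hA
  have hA0 : 0 < A := mul_pos h11 hxn
  have h12 := key (min (‖x‖ / (2 * p)) (A / (2 * p))) (lt_min (by positivity) (by positivity))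
    (min_le_left _ _)
  have h13 : (p : ℝ) * min (‖x‖ / (2 * p)) (A / (2 * p)) ≤ p * (A / (2 * p)) :=
    mul_le_mul_of_nonneg_left (min_le_right _ _) hp0.le
  have h14 : (p : ℝ) * (A / (2 * p)) = A / 2 := by field_simp
  linarith

end Pool.Agent.V8H84.HT
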