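import Pool.Agent.V8H84.HT.Cyc

/-!
# The normalised trace on the cyclotomic tower
-/

set_option autoImplicit false
set_option linter.unusedSectionVars false

namespace Pool.Agent.V8H84.HT

open Pool.Agent.W292.FM Polynomial

variable {p : ℕ} [hp : Fact p.Prime]

/-- `y` lies in the field generated by the roots of unity of order `p ^ m`. -/
def Lvl (m : ℕ) (y : PadicAlgCl p) : Prop :=
  ∀ z : PadicAlgCl p, IsPrimitiveRoot z (p ^ m) → ∃ f : ℚ_[p][X], y = aeval z f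

theorem exists_root (m : ℕ) : ∃ z : PadicAlgCl p, IsPrimitiveRoot z (p ^ m) := by
  have hne : NeZero (p ^ m) := ⟨pow_ne_zero _ hp.out.ne_zero⟩
  exact HasEnoughRootsOfUnity.exists_primitiveRoot (PadicAlgCl p) (p ^ m)

theorem Lvl.of_one {m : ℕ} {y z : PadicAlgCl p} (hz : IsPrimitiveRoot z (p ^ m))
    {f : ℚ_[p][X]} (h : y = aeval z f) : Lvl m y := by
  intro z' hz'
  have hne : NeZero (p ^ m) := ⟨pow_ne_zero _ hp.out.ne_zero⟩
  obtain ⟨i, -, hi⟩ := hz'.eq_pow_of_pow_eq_one hz.pow_eq_one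
  refine ⟨f.comp (X ^ i), ?_⟩
  rw [aeval_comp, map_pow, aeval_X, hi, h]

theorem Lvl.mono {n m : ℕ} (h : n ≤ m) {y : PadicAlgCl p} (hy : Lvl n y) : Lvl m y := by
  intro z hz
  have h1 : IsPrimitiveRoot (z ^ p ^ (m - n)) (p ^ n) := by
    apply hz.pow (pow_pos hp.out.pos _)
    rw [← pow_add, Nat.sub_add_cancel h]
  obtain ⟨f, hf⟩ := hy _ h1
  refine ⟨f.comp (X ^ p ^ (m - n)), ?_⟩
  rw [aeval_comp, map_pow, aeval_X, hf]

theorem Lvl.add {m : ℕ} {x y : PadicAlgCl p} (hx : Lvl m x) (hy : Lvl m y) : Lvl m (x + y) := by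
  intro z hz
  obtain ⟨f, hf⟩ := hx z hz
  obtain ⟨g, hg⟩ := hy z hz
  exact ⟨f + g, by rw [map_add, hf, hg]⟩

theorem Lvl.sub {m : ℕ} {x y : PadicAlgCl p} (hx : Lvl m x) (hy : Lvl m y) : Lvl m (x - y) := by
  intro z hz
  obtain ⟨f, hf⟩ := hx z hz
  obtain ⟨g, hg⟩ := hy z hz
  exact ⟨f - g, by rw [map_sub, hf, hg]⟩

theorem Lvl.mul {m : ℕ} {x y : PadicAlgCl p} (hx : Lvl m x) (hy : Lvl m y) : Lvl m (x * y) := by
  intro z hz
  obtain ⟨f, hf⟩ := hx z hz
  obtain ⟨g, hg⟩ := hy z hz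
  exact ⟨f * g, by rw [map_mul, hf, hg]⟩

theorem Lvl.algebraMap {m : ℕ} (c : ℚ_[p]) : Lvl m (algebraMap ℚ_[p] (PadicAlgCl p) c) := by
  intro z hz
  exact ⟨C c, by rw [aeval_C]⟩

theorem Lvl.smul {m : ℕ} (c : ℚ_[p]) {x : PadicAlgCl p} (hx : Lvl m x) : Lvl m (c • x) := by
  rw [Algebra.smul_def]
  exact (Lvl.algebraMap c).mul hx

theorem Lvl.inv {m : ℕ} {x : PadicAlgCl p} (hx : Lvl m x) : Lvl m x⁻¹ := by
  rcases eq_or_ne x 0 with h0 | h0
  · rw [h0, inv_zero]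
    have := Lvl.algebraMap (p := p) (m := m) 0
    rwa [map_zero] at this
  · -- `x⁻¹` is a polynomial in `x`
    have hint : IsIntegral ℚ_[p] x := (Algebra.IsAlgebraic.isAlgebraic x).isIntegral
    have h1 : x⁻¹ ∈ Algebra.adjoin ℚ_[p] {x} := by
      have h2 : (x : PadicAlgCl p)⁻¹ ∈ IntermediateField.adjoin ℚ_[p] {x} :=
        inv_mem (IntermediateField.mem_adjoin_simple_self ℚ_[p] x)
      rw [← IntermediateField.adjoin_simple_toSubalgebra_of_isAlgebraic hint.isAlgebraic]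
      exact h2
    rw [Algebra.adjoin_singleton_eq_range_aeval] at h1
    obtain ⟨g, hg⟩ := h1
    intro z hz
    obtain ⟨f, hf⟩ := hx z hz
    refine ⟨g.comp f, ?_⟩
    rw [aeval_comp, ← hf, ← hg]
    rfl

/-- The field of all roots of unity of order a power of `p`. -/
noncomputable def Kinf (p : ℕ) [Fact p.Prime] : IntermediateField ℚ_[p] (PadicAlgCl p) :=
  IntermediateField.adjoin ℚ_[p] {z | ∃ n : ℕ, z ^ p ^ n = 1}

theorem exists_lvl {y : PadicAlgCl p} (hy : y ∈ Kinf p) : ∃ m : ℕ, Lvl m y := by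
  refine IntermediateField.adjoin_induction ℚ_[p] (p := fun y _ => ∃ m : ℕ, Lvl m y) ?_ ?_ ?_ ?_ ?_
    hy
  · intro x hx
    obtain ⟨n, hn⟩ := hx
    obtain ⟨z, hz⟩ := exists_root (p := p) n
    have hne : NeZero (p ^ n) := ⟨pow_ne_zero _ hp.out.ne_zero⟩
    obtain ⟨i, -, hi⟩ := hz.eq_pow_of_pow_eq_one hn
    exact ⟨n, Lvl.of_one hz (f := X ^ i) (by rw [map_pow, aeval_X, hi])⟩
  · intro x
    exact ⟨0, Lvl.algebraMap x⟩
  · rintro x y _ _ ⟨a, ha⟩ ⟨b, hb⟩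
    exact ⟨max a b, (ha.mono (le_max_left _ _)).add (hb.mono (le_max_right _ _))⟩
  · rintro x _ ⟨a, ha⟩
    exact ⟨a, ha.inv⟩
  · rintro x y _ _ ⟨a, ha⟩ ⟨b, hb⟩
    exact ⟨max a b, (ha.mono (le_max_left _ _)).mul (hb.mono (le_max_right _ _))⟩

/-- Expansion of an element of level `m + 1` -/
theorem Lvl.expand {m : ℕ} {y z : PadicAlgCl p} (hy : Lvl (m + 1) y)
    (hz : IsPrimitiveRoot z (p ^ (m + 1))) : ∃ f : ℚ_[p][X],
      f.natDegree < Nat.totient (p ^ (m + 1)) ∧ y = aeval z f := by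
  obtain ⟨f, hf⟩ := hy z hz
  have hmon : (cyclotomic (p ^ (m + 1)) ℚ_[p]).Monic := cyclotomic.monic _ _
  have hroot : aeval z (cyclotomic (p ^ (m + 1)) ℚ_[p]) = 0 := by
    rw [aeval_def, ← eval_map, map_cyclotomic]
    exact hz.isRoot_cyclotomic (pow_pos hp.out.pos _)
  refine ⟨f %ₘ cyclotomic (p ^ (m + 1)) ℚ_[p], ?_, ?_⟩
  · rw [← natDegree_cyclotomic (p ^ (m + 1)) ℚ_[p]]
    apply natDegree_modByMonic_lt _ hmon
    intro h1
    have h2 := natDegree_cyclotomic (p ^ (m + 1)) ℚ_[p]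
    rw [h1, natDegree_one] at h2
    exact (totient_pos' (p := p) m).ne h2
  · rw [hf]
    conv_lhs => rw [← modByMonic_add_div f (cyclotomic (p ^ (m + 1)) ℚ_[p])]
    rw [map_add, map_mul, hroot, zero_mul, add_zero]

/-- Elements of the Galois group with the same value of the cyclotomic character. -/
theorem Lvl.eq_of_km {m : ℕ} {y : PadicAlgCl p} (hy : Lvl m y)
    {σ τ : Gal(PadicAlgCl p/ℚ_[p])} (h : km p m σ = km p m τ) : σ y = τ y := by
  obtain ⟨z, hz⟩ := exists_root (p := p) m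
  obtain ⟨f, hf⟩ := hy z hz
  have h1 : σ z = τ z := by
    rw [kap_spec σ hz.pow_eq_one, kap_spec τ hz.pow_eq_one, h]
  have h2 : ∀ g : Gal(PadicAlgCl p/ℚ_[p]), g (aeval z f) = aeval (g z) f := fun g =>
    (Polynomial.aeval_algHom_apply g.toAlgHom z f).symm
  rw [hf, h2, h2, h1]

/-- the residues congruent to one -/
def Sset (p : ℕ) [Fact p.Prime] {n m : ℕ} (h : n ≤ m) : Finset (ZMod (p ^ m)) :=
  have : NeZero (p ^ m) := ⟨pow_ne_zero _ (Fact.out : p.Prime).ne_zero⟩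
  Finset.univ.filter fun v => ZMod.castHom (pow_dvd_pow p h) (ZMod (p ^ n)) v = 1

theorem mem_Sset {n m : ℕ} (h : n ≤ m) (v : ZMod (p ^ m)) :
    v ∈ Sset p h ↔ ZMod.castHom (pow_dvd_pow p h) (ZMod (p ^ n)) v = 1 := by
  unfold Sset
  rw [Finset.mem_filter]
  exact ⟨fun h => h.2, fun h => ⟨Finset.mem_univ _, h⟩⟩

theorem Sset_card_pos {n m : ℕ} (h : n ≤ m) : 0 < (Sset p h).card := by
  apply Finset.card_pos.2
  exact ⟨1, (mem_Sset h 1).2 (map_one _)⟩

theorem Sset_isUnit {n m : ℕ} (h : n + 1 ≤ m) {v : ZMod (p ^ m)} (hv : v ∈ Sset p h) :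
    IsUnit v := by
  rw [mem_Sset] at hv
  have hne : NeZero (p ^ m) := ⟨pow_ne_zero _ hp.out.ne_zero⟩
  have hne' : NeZero (p ^ (n + 1)) := ⟨pow_ne_zero _ hp.out.ne_zero⟩
  rw [← ZMod.natCast_zmod_val v, ZMod.isUnit_iff_coprime]
  apply Nat.Coprime.pow_right
  rw [Nat.coprime_comm, hp.out.coprime_iff_not_dvd]
  intro hdvd
  rw [← ZMod.natCast_zmod_val v, map_natCast] at hv
  have h1 : ((v.val : ℕ) : ZMod p) = 1 := by
    have h2 := congrArg (ZMod.castHom (dvd_pow_self p (Nat.succ_ne_zero n)) (ZMod p)) hv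
    rwa [map_natCast, map_one] at h2
  have h3 : ((v.val : ℕ) : ZMod p) = 0 := (ZMod.natCast_eq_zero_iff _ _).2 hdvd
  rw [h3] at h1
  have : Fact (1 < p) := ⟨hp.out.one_lt⟩
  exact zero_ne_one h1

/-- an element of the Galois group with given value of the cyclotomic character -/
noncomputable def lift (m : ℕ) (v : ZMod (p ^ m)) : Gal(PadicAlgCl p/ℚ_[p]) :=
  open Classical in if h : ∃ σ : Gal(PadicAlgCl p/ℚ_[p]), km p m σ = v then h.choose else 1

theorem km_lift {n m : ℕ} (h : n + 1 ≤ m) {v : ZMod (p ^ m)} (hv : v ∈ Sset p h) :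
    km p m (lift m v) = v := by
  have h1 : ∃ σ : Gal(PadicAlgCl p/ℚ_[p]), km p m σ = v := by
    obtain ⟨m', rfl⟩ : ∃ m', m = m' + 1 := ⟨m - 1, by omega⟩
    obtain ⟨u, hu⟩ := Sset_isUnit h hv
    obtain ⟨σ, hσ⟩ := exists_km u
    exact ⟨σ, hσ.trans hu⟩
  unfold lift
  rw [dif_pos h1]
  exact h1.choose_spec

/-- the normalised trace -/
noncomputable def RR {n m : ℕ} (h : n ≤ m) (y : PadicAlgCl p) : PadicAlgCl p :=
  ((Sset p h).card : ℚ_[p])⁻¹ • ∑ v ∈ Sset p h, lift m v y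

theorem RR_add {n m : ℕ} (h : n ≤ m) (x y : PadicAlgCl p) : RR h (x + y) = RR h x + RR h y := by
  unfold RR
  rw [← smul_add, ← Finset.sum_add_distrib]
  simp only [map_add]

theorem RR_sub {n m : ℕ} (h : n ≤ m) (x y : PadicAlgCl p) : RR h (x - y) = RR h x - RR h y := by
  unfold RR
  rw [← smul_sub, ← Finset.sum_sub_distrib]
  simp only [map_sub]

theorem RR_smul {n m : ℕ} (h : n ≤ m) (c : ℚ_[p]) (x : PadicAlgCl p) :
    RR h (c • x) = c • RR h x := by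
  unfold RR
  rw [smul_comm c, Finset.smul_sum (r := c)]
  congr 1
  refine Finset.sum_congr rfl fun v _ => ?_
  rw [Algebra.smul_def, map_mul, AlgEquiv.commutes, ← Algebra.smul_def]

theorem RR_sum {n m : ℕ} (h : n ≤ m) {ι : Type*} (s : Finset ι) (f : ι → PadicAlgCl p) :
    RR h (∑ i ∈ s, f i) = ∑ i ∈ s, RR h (f i) := by
  unfold RR
  rw [← Finset.smul_sum, Finset.sum_comm]
  congr 1
  exact Finset.sum_congr rfl fun v _ => map_sum _ _ _

theorem card_ne_zero' {n m : ℕ} (h : n ≤ m) : ((Sset p h).card : ℚ_[p]) ≠ 0 :=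
  Nat.cast_ne_zero.2 (Sset_card_pos h).ne'

theorem RR_of_lvl {n m : ℕ} (h : n + 1 ≤ m) {y : PadicAlgCl p} (hy : Lvl (n + 1) y) :
    RR h y = y := by
  unfold RR
  have h1 : ∀ v ∈ Sset p h, lift m v y = y := by
    intro v hv
    have h2 : km p (n + 1) (lift m v) = km p (n + 1) (1 : Gal(PadicAlgCl p/ℚ_[p])) := by
      rw [← km_cast h, km_lift h hv, km_one]
      exact (mem_Sset h v).1 hv
    exact hy.eq_of_km h2
  rw [Finset.sum_congr rfl h1, Finset.sum_const, ← Nat.cast_smul_eq_nsmul ℚ_[p], smul_smul,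
    inv_mul_cancel₀ (card_ne_zero' h), one_smul]

theorem RR_gal {n m : ℕ} (h : n + 1 ≤ m) {y : PadicAlgCl p} (hy : Lvl m y)
    {σ : Gal(PadicAlgCl p/ℚ_[p])} (hσ : km p (n + 1) σ = 1) : RR h (σ y) = RR h y := by
  unfold RR
  congr 1
  have hs : km p m σ ∈ Sset p h := by rw [mem_Sset, km_cast h, hσ]
  obtain ⟨u, hu⟩ := Sset_isUnit h hs
  refine Finset.sum_bij' (fun v _ => v * km p m σ) (fun v _ => v * ((u⁻¹ : (ZMod (p ^ m))ˣ) :
    ZMod (p ^ m))) ?_ ?_ ?_ ?_ ?_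
  · intro v hv
    rw [mem_Sset] at hv hs ⊢
    rw [map_mul, hv, hs, one_mul]
  · intro v hv
    rw [mem_Sset] at hv hs ⊢
    have h3 : ZMod.castHom (pow_dvd_pow p h) (ZMod (p ^ (n + 1)))
        ((u⁻¹ : (ZMod (p ^ m))ˣ) : ZMod (p ^ m)) = 1 := by
      have h4 : (km p m σ) * ((u⁻¹ : (ZMod (p ^ m))ˣ) : ZMod (p ^ m)) = 1 := by
        rw [← hu, Units.mul_inv]
      have h5 := congrArg (ZMod.castHom (pow_dvd_pow p h) (ZMod (p ^ (n + 1)))) h4
      rwa [map_mul, hs, one_mul, map_one] at h5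
    rw [map_mul, hv, h3, one_mul]
  · intro v _
    rw [mul_assoc, ← hu, Units.mul_inv, mul_one]
  · intro v _
    rw [mul_assoc, ← hu, Units.inv_mul, mul_one]
  · intro v hv
    have hv' : v * km p m σ ∈ Sset p h := by
      rw [mem_Sset] at hv hs ⊢
      rw [map_mul, hv, hs, one_mul]
    have h6 : km p m (lift m v * σ) = km p m (lift m (v * km p m σ)) := by
      rw [km_mul, km_lift h hv, km_lift h hv']
    exact hy.eq_of_km h6

/-- the normalised trace of a root of unity has norm at most one -/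
theorem norm_RR_root {n m : ℕ} (h : n + 1 ≤ m) {t : PadicAlgCl p} (ht : t ^ p ^ m = 1) :
    ‖RR h t‖ ≤ 1 := by
  have hp0 : p ^ m ≠ 0 := pow_ne_zero _ hp.out.ne_zero
  have h1 : ∑ v ∈ Sset p h, lift m v t = ∑ v ∈ Sset p h, t ^ v.val := by
    refine Finset.sum_congr rfl fun v hv => ?_
    rw [kap_spec _ ht, km_lift h hv]
  unfold RR
  rw [h1]
  by_cases hc : t ^ p ^ (n + 1) = 1
  · have h2 : ∀ v ∈ Sset p h, t ^ v.val = t := by
      intro v hv
      rw [mem_Sset] at hv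
      have hne : NeZero (p ^ m) := ⟨hp0⟩
      have h3 : ((v.val : ℕ) : ZMod (p ^ (n + 1))) = ((1 : ℕ) : ZMod (p ^ (n + 1))) := by
        rw [← ZMod.natCast_zmod_val v, map_natCast] at hv
        rw [hv, Nat.cast_one]
      have h4 := pow_val_cast hc v.val
      rw [h3, pow_val_cast hc, pow_one] at h4
      exact h4.symm
    rw [Finset.sum_congr rfl h2, Finset.sum_const, ← Nat.cast_smul_eq_nsmul ℚ_[p], smul_smul,
      inv_mul_cancel₀ (card_ne_zero' h), one_smul]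
    exact (norm_rootOfUnity hp0 ht).le
  · have h2 : (∑ v ∈ Sset p h, t ^ v.val) * t ^ p ^ (n + 1) = ∑ v ∈ Sset p h, t ^ v.val := by
      rw [Finset.sum_mul]
      refine Finset.sum_bij' (fun v _ => v + ((p ^ (n + 1) : ℕ) : ZMod (p ^ m)))
        (fun v _ => v - ((p ^ (n + 1) : ℕ) : ZMod (p ^ m))) ?_ ?_ ?_ ?_ ?_
      · intro v hv
        rw [mem_Sset] at hv ⊢
        rw [map_add, hv, map_natCast, ZMod.natCast_self, add_zero]
      · intro v hv
        rw [mem_Sset] at hv ⊢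
        rw [map_sub, hv, map_natCast, ZMod.natCast_self, sub_zero]
      · intro v _
        ring
      · intro v _
        ring
      · intro v _
        rw [pow_val_add ht, pow_val_cast ht]
    have h3 : ∑ v ∈ Sset p h, t ^ v.val = 0 := by
      have h4 : (∑ v ∈ Sset p h, t ^ v.val) * (t ^ p ^ (n + 1) - 1) = 0 := by
        rw [mul_sub, h2, mul_one, sub_self]
      rcases mul_eq_zero.1 h4 with h5 | h5
      · exact h5
      · exact absurd (sub_eq_zero.1 h5) hc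
    rw [h3, smul_zero, norm_zero]
    exact zero_le_one

theorem norm_intCast_le (c : ℤ) : ‖((c : ℚ_[p]))‖ ≤ 1 := Padic.norm_int_le_one c

/-- the normalised trace is bounded -/
theorem norm_RR_le {n m : ℕ} (h : n + 1 ≤ m) {y : PadicAlgCl p} (hy : Lvl m y) :
    ‖RR h y‖ ≤ p * ‖y‖ := by
  obtain ⟨m', rfl⟩ : ∃ m', m = m' + 1 := ⟨m - 1, by omega⟩
  obtain ⟨z, hz⟩ := exists_root (p := p) (m' + 1)
  obtain ⟨f, hf, hyf⟩ := hy.expand hz
  have hexp := aeval_taylor f z hf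
  have hp0 : (0 : ℝ) < p := by exact_mod_cast hp.out.pos
  have hp1 : (1 : ℝ) < p := by exact_mod_cast hp.out.one_lt
  set a : ℕ → ℚ_[p] := fun i => (taylor 1 f).coeff i with ha
  -- bound of the coefficients
  have hz0 : (0 : ℝ) < ‖z - 1‖ := by
    have h5 := norm_sub_one_pow_totient hz
    by_contra hcon
    have h6 : ‖z - 1‖ = 0 := le_antisymm (not_lt.1 hcon) (norm_nonneg _)
    rw [h6, zero_pow (totient_pos' m').ne'] at h5
    exact (inv_ne_zero hp0.ne') h5.symm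
  have hz1 : ‖z - 1‖ ≤ 1 := by
    by_contra hcon
    push Not at hcon
    have h5 := norm_sub_one_pow_totient hz
    have h6 := one_lt_pow₀ hcon (totient_pos' (p := p) m').ne'
    rw [h5] at h6
    have := inv_lt_one_of_one_lt₀ hp1
    linarith
  have hcoef : ∀ i ∈ Finset.range (Nat.totient (p ^ (m' + 1))), ‖a i‖ ≤ p * ‖y‖ := by
    intro i hi
    have h1 := norm_term_le hz a (Finset.mem_range.1 hi)
    rw [← hexp, ← hyf, norm_mul, PadicAlgCl.norm_extends, norm_pow] at h1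
    have h2 : (p : ℝ)⁻¹ ≤ ‖z - 1‖ ^ i := by
      rw [← norm_sub_one_pow_totient hz]
      exact pow_le_pow_of_le_one hz0.le hz1 (Finset.mem_range.1 hi).le
    have h3 : ‖a i‖ * (p : ℝ)⁻¹ ≤ ‖y‖ :=
      (mul_le_mul_of_nonneg_left h2 (norm_nonneg _)).trans h1
    calc ‖a i‖ = p * (‖a i‖ * (p : ℝ)⁻¹) := by field_simp
      _ ≤ p * ‖y‖ := mul_le_mul_of_nonneg_left h3 hp0.le
  -- the powers of `z - 1`
  have hpow : ∀ i : ℕ, ‖RR h ((z - 1) ^ i)‖ ≤ 1 := by
    intro i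
    have h1 : (z - 1) ^ i = ∑ k ∈ Finset.range (i + 1),
        (((-1) ^ (i - k) * (i.choose k : ℤ) : ℤ) : ℚ_[p]) • z ^ k := by
      rw [sub_eq_add_neg, add_pow]
      refine Finset.sum_congr rfl fun k _ => ?_
      rw [Algebra.smul_def, map_intCast]
      push_cast
      ring
    rw [h1, RR_sum]
    refine IsUltrametricDist.norm_sum_le_of_forall_le_of_nonneg zero_le_one ?_
    intro k _
    rw [RR_smul, norm_smul]
    have h2 : ‖RR h (z ^ k)‖ ≤ 1 := norm_RR_root h (by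
      rw [← pow_mul, mul_comm, pow_mul, hz.pow_eq_one, one_pow])
    exact mul_le_one₀ (Padic.norm_int_le_one _) (norm_nonneg _) h2
  have h7 : RR h y = ∑ i ∈ Finset.range (Nat.totient (p ^ (m' + 1))), a i • RR h ((z - 1) ^ i) := by
    rw [hyf, hexp, RR_sum]
    refine Finset.sum_congr rfl fun i _ => ?_
    rw [← Algebra.smul_def, RR_smul]
  rw [h7]
  refine IsUltrametricDist.norm_sum_le_of_forall_le_of_nonneg (by positivity) ?_
  intro i hi
  rw [norm_smul]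
  calc ‖a i‖ * ‖RR h ((z - 1) ^ i)‖ ≤ (p * ‖y‖) * 1 :=
        mul_le_mul (hcoef i hi) (hpow i) (norm_nonneg _) (by positivity)
    _ = p * ‖y‖ := mul_one _

end Pool.Agent.V8H84.HT
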