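import Pool.Agent.V8H84.HT.Fin

/-!
# The Hodge-Tate weights of a stable subspace
-/

set_option autoImplicit false
set_option linter.unusedSectionVars false

namespace Pool.Agent.V8H84.HT

open Pool.Agent.W292.FM Matrix

section rows

variable {K : Type*} [Field K]

/-- A matrix with a left inverse has an invertible submatrix. -/
theorem exists_rows {n k : ℕ} (Y : Matrix (Fin n) (Fin k) K) (L : Matrix (Fin k) (Fin n) K)
    (h : L * Y = 1) : ∃ f : Fin k → Fin n, Function.Injective f ∧ (Y.submatrix f id).det ≠ 0 := by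
  obtain ⟨κ, a, ha, hspan, hli⟩ := exists_linearIndependent' K Y
  have htop : Submodule.span K (Set.range Y) = ⊤ := by
    rw [eq_top_iff]
    rintro v -
    have h1 : v = ∑ i, (v ᵥ* L) i • Y i := by
      have h2 : v = (v ᵥ* L) ᵥ* Y := by rw [vecMul_vecMul, h, vecMul_one]
      conv_lhs => rw [h2]
      funext j
      simp [vecMul, dotProduct, Finset.sum_apply]
    rw [h1]
    exact Submodule.sum_mem _ fun i _ => Submodule.smul_mem _ _ (Submodule.subset_span ⟨i, rfl⟩)
  rw [htop] at hspan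
  have hb : Module.Basis κ K (Fin k → K) := Module.Basis.mk hli (by rw [hspan])
  have hfin : Finite κ := Finite.of_injective a ha
  let _ : Fintype κ := Fintype.ofFinite κ
  have hcard : Fintype.card κ = k := by
    have h3 := Module.finrank_eq_card_basis hb
    rw [Module.finrank_fin_fun] at h3
    exact h3.symm
  let e : Fin k ≃ κ := (Fintype.equivFinOfCardEq hcard).symm
  refine ⟨a ∘ e, ha.comp e.injective, ?_⟩
  have h4 : LinearIndependent K (Y.submatrix (a ∘ e) id).row := by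
    have h5 := hli.comp e e.injective
    exact h5
  have h6 := Matrix.linearIndependent_rows_iff_isUnit.1 h4
  exact ((Matrix.isUnit_iff_isUnit_det _).1 h6).ne_zero

end rows

variable {p : ℕ} [hp : Fact p.Prime]

/-- the inclusion of `ℚ_p` in `ℂ_p` -/
noncomputable abbrev al (p : ℕ) [Fact p.Prime] : ℚ_[p] →+* ℂ_[p] := algebraMap ℚ_[p] ℂ_[p]

/-- the action of the Galois group on `ℂ_p` as ring homomorphism -/
noncomputable abbrev cm (σ : Gal(PadicAlgCl p/ℚ_[p])) : ℂ_[p] →+* ℂ_[p] :=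
  (cpMap p σ : ℂ_[p] →+* ℂ_[p])

/-- powers of the cyclotomic character in `ℂ_p` -/
noncomputable def kc (σ : Gal(PadicAlgCl p/ℚ_[p])) (e : ℤ) : ℂ_[p] :=
  al p ((kq p σ ^ e : ℚ_[p]ˣ) : ℚ_[p])

theorem kc_add (σ : Gal(PadicAlgCl p/ℚ_[p])) (e f : ℤ) : kc σ (e + f) = kc σ e * kc σ f := by
  unfold kc
  rw [_root_.zpow_add, Units.val_mul, map_mul]

theorem kc_zero (σ : Gal(PadicAlgCl p/ℚ_[p])) : kc σ 0 = 1 := by
  unfold kc
  rw [zpow_zero, Units.val_one, map_one]

theorem kc_ne (σ : Gal(PadicAlgCl p/ℚ_[p])) (e : ℤ) : kc σ e ≠ 0 := by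
  unfold kc
  exact (map_ne_zero _).2 (Units.ne_zero _)

theorem kc_neg (σ : Gal(PadicAlgCl p/ℚ_[p])) (e : ℤ) : kc σ e * kc σ (-e) = 1 := by
  rw [← kc_add, add_neg_cancel, kc_zero]

theorem kc_sum (σ : Gal(PadicAlgCl p/ℚ_[p])) {ι : Type*} (s : Finset ι) (f : ι → ℤ) :
    kc σ (∑ i ∈ s, f i) = ∏ i ∈ s, kc σ (f i) := by
  classical
  induction s using Finset.induction_on with
  | empty => rw [Finset.sum_empty, Finset.prod_empty, kc_zero]
  | insert a s ha ih => rw [Finset.sum_insert ha, Finset.prod_insert ha, kc_add, ih]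

theorem map_cm_al {ι κ : Type*} (σ : Gal(PadicAlgCl p/ℚ_[p])) (B : Matrix ι κ ℚ_[p]) :
    (B.map (al p)).map (cm σ) = B.map (al p) := by
  ext i j
  simp only [Matrix.map_apply]
  exact cpMap_algebraMap p σ _

/-- the diagonal matrix of the powers of the cyclotomic character -/
noncomputable def dg {ι : Type*} [DecidableEq ι] (σ : Gal(PadicAlgCl p/ℚ_[p])) (m : ι → ℤ) :
    Matrix ι ι ℂ_[p] := Matrix.diagonal fun i => kc σ (-m i)

/-- the Gram matrix of the form with respect to the Hodge-Tate basis -/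
theorem gram {n : ℕ} (H : Subgroup Gal(PadicAlgCl p/ℚ_[p])) [H.FiniteIndex]
    (R : Gal(PadicAlgCl p/ℚ_[p]) → Matrix (Fin n) (Fin n) ℚ_[p])
    (M : Matrix (Fin n) (Fin n) ℂ_[p]) (hM : M.det ≠ 0) (m : Fin n → ℤ)
    (hHT : ∀ σ ∈ H, (R σ).map (al p) * M.map (cm σ) = M * dg σ m)
    (J : Matrix (Fin n) (Fin n) ℚ_[p]) (hJ : J.det ≠ 0) (w : ℤ)
    (hJR : ∀ σ ∈ H, (R σ)ᵀ * J * R σ = ((kq p σ ^ (-w) : ℚ_[p]ˣ) : ℚ_[p]) • J) (a : Fin n) :
    ∃ b, m a + m b = w := by
  set Γ := Mᵀ * J.map (al p) * M with hΓ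
  have hΓdet : Γ.det ≠ 0 := by
    rw [hΓ, Matrix.det_mul, Matrix.det_mul, Matrix.det_transpose]
    have h1 : (J.map (al p)).det = al p J.det := by
      rw [← RingHom.mapMatrix_apply, ← RingHom.map_det]
    rw [h1]
    exact mul_ne_zero (mul_ne_zero hM ((map_ne_zero _).2 hJ)) hM
  have hΓrel : ∀ σ ∈ H, dg σ m * Γ * dg σ m = kc σ (-w) • Γ.map (cm σ) := by
    intro σ hσ
    have h1 : ((R σ).map (al p))ᵀ * J.map (al p) * (R σ).map (al p) = kc σ (-w) • J.map (al p) := by
      rw [← Matrix.transpose_map, ← Matrix.map_mul, ← Matrix.map_mul, hJR σ hσ]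
      ext i j
      simp only [Matrix.map_apply, Matrix.smul_apply, smul_eq_mul, map_mul]
      rfl
    have h2 : (dg σ m)ᵀ = dg σ m := Matrix.diagonal_transpose _
    have h3 : dg σ m * Γ * dg σ m = (M * dg σ m)ᵀ * J.map (al p) * (M * dg σ m) := by
      rw [Matrix.transpose_mul, h2, hΓ]
      simp only [Matrix.mul_assoc]
    rw [h3, ← hHT σ hσ, Matrix.transpose_mul]
    have h4 : (M.map (cm σ))ᵀ * ((R σ).map (al p))ᵀ * J.map (al p) *
        ((R σ).map (al p) * M.map (cm σ)) = (M.map (cm σ))ᵀ *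
        (((R σ).map (al p))ᵀ * J.map (al p) * (R σ).map (al p)) * M.map (cm σ) := by
      simp only [Matrix.mul_assoc]
    rw [h4, h1, Matrix.mul_smul, Matrix.smul_mul, hΓ, Matrix.map_mul, Matrix.map_mul, map_cm_al,
      Matrix.transpose_map]
  have hΓ0 : ∀ a b, m a + m b ≠ w → Γ a b = 0 := by
    intro a b hab
    have hne : w - (m a + m b) ≠ 0 := sub_ne_zero.2 fun h => hab h.symm
    refine tate_int H hne fun σ hσ => ?_
    have h1 := congrFun (congrFun (hΓrel σ hσ) a) b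
    unfold dg at h1
    rw [Matrix.mul_diagonal, Matrix.diagonal_mul, Matrix.smul_apply, Matrix.map_apply,
      smul_eq_mul] at h1
    have h2 : cpMap p σ (Γ a b) = kc σ (w - (m a + m b)) * Γ a b := by
      have h3 : kc σ w * (kc σ (-w) * cm σ (Γ a b)) = cm σ (Γ a b) := by
        rw [← mul_assoc, kc_neg, one_mul]
      have h4 : cpMap p σ (Γ a b) = cm σ (Γ a b) := rfl
      have h5 : w - (m a + m b) = w + -m a + -m b := by ring
      rw [h4, ← h3, ← h1, h5, kc_add, kc_add]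
      ring
    exact h2
  by_contra hcon
  push Not at hcon
  exact hΓdet (Matrix.det_eq_zero_of_row_eq_zero a fun b => hΓ0 a b (hcon b))

/-- **The Hodge-Tate weights of a stable subspace**, and of an isotropic one. -/
theorem weights {n k : ℕ} (H : Subgroup Gal(PadicAlgCl p/ℚ_[p])) [H.FiniteIndex]
    (R : Gal(PadicAlgCl p/ℚ_[p]) → Matrix (Fin n) (Fin n) ℚ_[p])
    (M : Matrix (Fin n) (Fin n) ℂ_[p]) (hM : M.det ≠ 0) (m : Fin n → ℤ)
    (hm : Function.Injective m)
    (hHT : ∀ σ ∈ H, (R σ).map (al p) * M.map (cm σ) = M * dg σ m)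
    (B : Matrix (Fin n) (Fin k) ℚ_[p]) (L : Matrix (Fin k) (Fin n) ℚ_[p]) (hB : L * B = 1)
    (r : Gal(PadicAlgCl p/ℚ_[p]) → Matrix (Fin k) (Fin k) ℚ_[p])
    (hr : ∀ σ ∈ H, R σ * B = B * r σ)
    (J : Matrix (Fin n) (Fin n) ℚ_[p]) (hJ : J.det ≠ 0) (w : ℤ)
    (hJR : ∀ σ ∈ H, (R σ)ᵀ * J * R σ = ((kq p σ ^ (-w) : ℚ_[p]ˣ) : ℚ_[p]) • J)
    (hiso : Bᵀ * J * B = 0) :
    ∃ (f : Fin k → Fin n) (y : ℂ_[p]), Function.Injective f ∧ (∀ i j, m (f i) + m (f j) ≠ w) ∧
      y ≠ 0 ∧ ∀ σ ∈ H, cpMap p σ y = kc σ (∑ i, m (f i)) * al p (r σ).det * y := by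
  have hMu : IsUnit M.det := isUnit_iff_ne_zero.2 hM
  set B' := B.map (al p) with hB'
  set Y := M⁻¹ * B' with hY
  have hMY : M * Y = B' := by rw [hY, ← Matrix.mul_assoc, Matrix.mul_nonsing_inv _ hMu,
    Matrix.one_mul]
  obtain ⟨f, hf, hdet⟩ := exists_rows Y (L.map (al p) * M) (by
    rw [Matrix.mul_assoc, hMY, hB', ← Matrix.map_mul, hB]
    exact Matrix.map_one _ (map_zero _) (map_one _))
  set Yf := Y.submatrix f id with hYf
  have hYfu : IsUnit Yf.det := isUnit_iff_ne_zero.2 hdet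
  -- the basic relation
  have hrel : ∀ σ ∈ H, dg σ m * Y.map (cm σ) = Y * (r σ).map (al p) := by
    intro σ hσ
    have h1 : (R σ).map (al p) * B' = M * (dg σ m * Y.map (cm σ)) := by
      have h2 : B' = M.map (cm σ) * Y.map (cm σ) := by
        rw [← Matrix.map_mul, hMY, hB', map_cm_al]
      rw [h2, ← Matrix.mul_assoc, hHT σ hσ, Matrix.mul_assoc]
    have h3 : (R σ).map (al p) * B' = M * (Y * (r σ).map (al p)) := by
      rw [← Matrix.mul_assoc, hMY, hB', ← Matrix.map_mul, ← Matrix.map_mul, hr σ hσ]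
    have h4 := h1.symm.trans h3
    have h5 := congrArg (fun A => M⁻¹ * A) h4
    simp only [← Matrix.mul_assoc, Matrix.nonsing_inv_mul _ hMu, Matrix.one_mul] at h5
    exact h5
  have hrelf : ∀ σ ∈ H, dg σ (m ∘ f) * Yf.map (cm σ) = Yf * (r σ).map (al p) := by
    intro σ hσ
    have h1 := congrArg (fun A => A.submatrix f id) (hrel σ hσ)
    ext i j
    have h2 := congrFun (congrFun h1 i) j
    simp only [Matrix.submatrix_apply, id] at h2
    unfold dg at h2 ⊢
    rw [Matrix.diagonal_mul] at h2 ⊢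
    exact h2
  -- the matrix `Z`
  set Z := Y * Yf⁻¹ with hZ
  have hZf : Z.submatrix f id = 1 := by
    have h1 : Z.submatrix f id = Yf * Yf⁻¹ := by
      ext i j
      rfl
    rw [h1, Matrix.mul_nonsing_inv _ hYfu]
  have hZrel : ∀ σ ∈ H, dg σ m * Z.map (cm σ) = Z * dg σ (m ∘ f) := by
    intro σ hσ
    have hu : IsUnit (Yf.map (cm σ)).det := by
      rw [← RingHom.mapMatrix_apply, ← RingHom.map_det]
      exact hYfu.map _
    have h1 : Z.map (cm σ) * Yf.map (cm σ) = Y.map (cm σ) := by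
      rw [← Matrix.map_mul, hZ, Matrix.mul_assoc, Matrix.nonsing_inv_mul _ hYfu, Matrix.mul_one]
    have h2 : Z * Yf = Y := by
      rw [hZ, Matrix.mul_assoc, Matrix.nonsing_inv_mul _ hYfu, Matrix.mul_one]
    have h3 : dg σ m * Z.map (cm σ) * Yf.map (cm σ) = Z * dg σ (m ∘ f) * Yf.map (cm σ) := by
      rw [Matrix.mul_assoc, h1, hrel σ hσ, Matrix.mul_assoc Z, hrelf σ hσ, ← Matrix.mul_assoc, h2]
    have h4 := congrArg (fun A => A * (Yf.map (cm σ))⁻¹) h3
    simp only [Matrix.mul_assoc, Matrix.mul_nonsing_inv _ hu, Matrix.mul_one] at h4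
    exact h4
  have hZ0 : ∀ a j, a ≠ f j → Z a j = 0 := by
    intro a j haj
    have hne : m a - m (f j) ≠ 0 := sub_ne_zero.2 fun h => haj (hm h)
    refine tate_int H hne fun σ hσ => ?_
    have h1 := congrFun (congrFun (hZrel σ hσ) a) j
    unfold dg at h1
    rw [Matrix.diagonal_mul, Matrix.mul_diagonal, Matrix.map_apply] at h1
    have h2 : cpMap p σ (Z a j) = kc σ (m a - m (f j)) * Z a j := by
      have h3 : kc σ (m a) * (kc σ (-m a) * cm σ (Z a j)) = cm σ (Z a j) := by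
        rw [← mul_assoc, kc_neg, one_mul]
      have h4 : cpMap p σ (Z a j) = cm σ (Z a j) := rfl
      rw [h4, ← h3, h1, sub_eq_add_neg, kc_add]
      simp only [Function.comp_apply]
      ring
    exact h2
  -- the Gram matrix
  set Γ := Mᵀ * J.map (al p) * M with hΓ
  have hΓdet : Γ.det ≠ 0 := by
    rw [hΓ, Matrix.det_mul, Matrix.det_mul, Matrix.det_transpose]
    have h1 : (J.map (al p)).det = al p J.det := by
      rw [← RingHom.mapMatrix_apply, ← RingHom.map_det]
    rw [h1]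
    exact mul_ne_zero (mul_ne_zero hM ((map_ne_zero _).2 hJ)) hM
  have hΓrel : ∀ σ ∈ H, dg σ m * Γ * dg σ m = kc σ (-w) • Γ.map (cm σ) := by
    intro σ hσ
    have h1 : ((R σ).map (al p))ᵀ * J.map (al p) * (R σ).map (al p) = kc σ (-w) • J.map (al p) := by
      rw [← Matrix.transpose_map, ← Matrix.map_mul, ← Matrix.map_mul, hJR σ hσ]
      ext i j
      simp only [Matrix.map_apply, Matrix.smul_apply, smul_eq_mul, map_mul]
      rfl
    have h2 : (dg σ m)ᵀ = dg σ m := Matrix.diagonal_transpose _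
    have h3 : dg σ m * Γ * dg σ m = (M * dg σ m)ᵀ * J.map (al p) * (M * dg σ m) := by
      rw [Matrix.transpose_mul, h2, hΓ]
      simp only [Matrix.mul_assoc]
    rw [h3, ← hHT σ hσ, Matrix.transpose_mul]
    have h4 : (M.map (cm σ))ᵀ * ((R σ).map (al p))ᵀ * J.map (al p) *
        ((R σ).map (al p) * M.map (cm σ)) = (M.map (cm σ))ᵀ *
        (((R σ).map (al p))ᵀ * J.map (al p) * (R σ).map (al p)) * M.map (cm σ) := by
      simp only [Matrix.mul_assoc]
    rw [h4, h1, Matrix.mul_smul, Matrix.smul_mul, hΓ, Matrix.map_mul, Matrix.map_mul, map_cm_al,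
      Matrix.transpose_map]
  have hΓ0 : ∀ a b, m a + m b ≠ w → Γ a b = 0 := by
    intro a b hab
    have hne : w - (m a + m b) ≠ 0 := sub_ne_zero.2 fun h => hab h.symm
    refine tate_int H hne fun σ hσ => ?_
    have h1 := congrFun (congrFun (hΓrel σ hσ) a) b
    unfold dg at h1
    rw [Matrix.mul_diagonal, Matrix.diagonal_mul, Matrix.smul_apply, Matrix.map_apply,
      smul_eq_mul] at h1
    have h2 : cpMap p σ (Γ a b) = kc σ (w - (m a + m b)) * Γ a b := by
      have h3 : kc σ w * (kc σ (-w) * cm σ (Γ a b)) = cm σ (Γ a b) := by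
        rw [← mul_assoc, kc_neg, one_mul]
      have h4 : cpMap p σ (Γ a b) = cm σ (Γ a b) := rfl
      have h5 : w - (m a + m b) = w + -m a + -m b := by ring
      rw [h4, ← h3, ← h1, h5, kc_add, kc_add]
      ring
    exact h2
  -- isotropy
  have hiso' : Zᵀ * Γ * Z = 0 := by
    have h1 : Yᵀ * Γ * Y = 0 := by
      have h2 : Yᵀ * Γ * Y = (M * Y)ᵀ * J.map (al p) * (M * Y) := by
        rw [hΓ, Matrix.transpose_mul M Y]
        simp only [Matrix.mul_assoc]
      rw [h2, hMY, hB', ← Matrix.transpose_map, ← Matrix.map_mul, ← Matrix.map_mul, hiso]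
      exact Matrix.map_zero _ (map_zero _)
    have h2 : Zᵀ * Γ * Z = (Yf⁻¹)ᵀ * (Yᵀ * Γ * Y) * Yf⁻¹ := by
      rw [hZ, Matrix.transpose_mul]
      simp only [Matrix.mul_assoc]
    rw [h2, h1, Matrix.mul_zero, Matrix.zero_mul]
  have hZe : ∀ a j, Z a j = if a = f j then 1 else 0 := by
    intro a j
    split_ifs with h
    · have h1 := congrFun (congrFun hZf j) j
      rw [Matrix.submatrix_apply, id, Matrix.one_apply_eq] at h1
      rw [h, h1]
    · exact hZ0 a j h
  have hΓf : ∀ i j, Γ (f i) (f j) = 0 := by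
    intro i j
    have h1 := congrFun (congrFun hiso' i) j
    rw [Matrix.mul_apply] at h1
    simp only [Matrix.mul_apply, Matrix.transpose_apply, hZe] at h1
    simpa using h1
  refine ⟨f, Yf.det, hf, ?_, hdet, ?_⟩
  · intro i j hij
    -- row `f i` of `Γ` is nonzero
    have h1 : ∃ b, Γ (f i) b ≠ 0 := by
      by_contra hcon
      push Not at hcon
      exact hΓdet (Matrix.det_eq_zero_of_row_eq_zero (f i) hcon)
    obtain ⟨b, hb⟩ := h1
    have h2 : m (f i) + m b = w := by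
      by_contra h
      exact hb (hΓ0 _ _ h)
    have h3 : m b = m (f j) := by linarith
    rw [hm h3] at hb
    exact hb (hΓf i j)
  · intro σ hσ
    have h1 := congrArg Matrix.det (hrelf σ hσ)
    rw [Matrix.det_mul, Matrix.det_mul] at h1
    have h2 : (Yf.map (cm σ)).det = cm σ Yf.det := by
      rw [← RingHom.mapMatrix_apply, ← RingHom.map_det]
    have h3 : ((r σ).map (al p)).det = al p (r σ).det := by
      rw [← RingHom.mapMatrix_apply, ← RingHom.map_det]
    have h4 : (dg σ (m ∘ f)).det = kc σ (-∑ i, m (f i)) := by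
      unfold dg
      rw [Matrix.det_diagonal, ← Finset.sum_neg_distrib, kc_sum]
      rfl
    rw [h2, h3, h4] at h1
    have h5 : cpMap p σ Yf.det = cm σ Yf.det := rfl
    have h6 : kc σ (∑ i, m (f i)) * (kc σ (-∑ i, m (f i)) * cm σ Yf.det) = cm σ Yf.det := by
      rw [← mul_assoc, kc_neg, one_mul]
    rw [h5, ← h6, h1]
    ring

end Pool.Agent.V8H84.HT
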